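/-
helper780: definitions and task statements for the Gaussian product inequality (MP_808c93_pr).
-/
import Mathlib

set_option autoImplicit false
open MeasureTheory ProbabilityTheory

namespace H780GP

/-- The ambient space: `ℝ^n × ℝ^d`. -/
abbrev V (n d : ℕ) := (Fin n → ℝ) × (Fin d → ℝ)

/-- Standard Gaussian measure on `ℝ^n`. -/
noncomputable def gam (n : ℕ) : Measure (Fin n → ℝ) :=
  Measure.pi fun _ : Fin n => gaussianReal 0 1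

/-- Standard Gaussian measure on `ℝ^n × ℝ^d`. -/
noncomputable def mu (n d : ℕ) : Measure (V n d) := (gam n).prod (gam d)

/-- Law of a pair of independent standard Gaussian vectors. -/
noncomputable def PP (n d : ℕ) : Measure (V n d × V n d) := (mu n d).prod (mu n d)

/-- The perturbed linear forms `l_k(g) + ε y_k`. -/
def Lf {n d : ℕ} (l : Fin d → ((Fin n → ℝ) →ₗ[ℝ] ℝ)) (ε : ℝ) (k : Fin d) (w : V n d) : ℝ :=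
  l k w.1 + ε * w.2 k

/-- Rotation of a pair. -/
noncomputable def rot {n d : ℕ} (t : ℝ) (Z : V n d × V n d) : V n d × V n d :=
  (Real.cos t • Z.1 + Real.sin t • Z.2, -Real.sin t • Z.1 + Real.cos t • Z.2)

/-- One factor `x^p / (δ x + i θ)^(p+q)`. -/
noncomputable def fac (δ : ℝ) (p q : ℕ) (x θ : ℝ) : ℂ :=
  (x : ℂ) ^ p / ((δ : ℂ) * (x : ℂ) + Complex.I * (θ : ℂ)) ^ (p + q)

/-- The product of the factors, `x_k = Lf k Z.1`, `θ_k = Lf k Z.2`. -/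
noncomputable def FF {n d : ℕ} (l : Fin d → ((Fin n → ℝ) →ₗ[ℝ] ℝ)) (ε δ : ℝ) (p q : Fin d → ℕ)
    (Z : V n d × V n d) : ℂ :=
  ∏ k, fac δ (p k) (q k) (Lf l ε k Z.1) (Lf l ε k Z.2)

/-- The exponent vector `e_i + e_j` (for `i ≠ j`). -/
def qq {d : ℕ} (i j : Fin d) : Fin d → ℕ := fun k => if k = i ∨ k = j then 1 else 0

/-- Covariances of the forms `Lf k`. -/
noncomputable def GG {n d : ℕ} (l : Fin d → ((Fin n → ℝ) →ₗ[ℝ] ℝ)) (ε : ℝ) (i j : Fin d) : ℝ :=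
  ∫ w, Lf l ε i w * Lf l ε j w ∂(mu n d)

/-- The variance of `∑ c_k Lf_k` written with the covariances. -/
noncomputable def VV {n d : ℕ} (l : Fin d → ((Fin n → ℝ) →ₗ[ℝ] ℝ)) (ε : ℝ) (c : Fin d → ℝ) : ℝ :=
  ∑ i, ∑ j, c i * c j * GG l ε i j

/-- Lebesgue measure on the open positive orthant of `ℝ^d`. -/
noncomputable def orth (d : ℕ) : Measure (Fin d → ℝ) :=
  Measure.pi fun _ : Fin d => (volume : Measure ℝ).restrict (Set.Ioi 0)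

/-- The one dimensional weight `a^(p-1) exp(-δ a) / Γ(p)`. -/
noncomputable def wt (δ : ℝ) (p : ℕ) (a : ℝ) : ℝ :=
  a ^ (p - 1) * Real.exp (-(δ * a)) / Real.Gamma p

/-- `φ(x) = ∫_0^∞ wt(a) exp(-G a²/(2x²)) da`. -/
noncomputable def phi (δ : ℝ) (p : ℕ) (G x : ℝ) : ℝ :=
  ∫ a in Set.Ioi (0 : ℝ), wt δ p a * Real.exp (-(1 / 2) * (G * (a / x) ^ 2))

/-- `ρ = ∫_0^∞ b^(p-1) exp(-G b²/2) db / Γ(p)`. -/
noncomputable def rho (p : ℕ) (G : ℝ) : ℝ :=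
  ∫ b in Set.Ioi (0 : ℝ), b ^ (p - 1) / Real.Gamma p * Real.exp (-(1 / 2) * (G * b ^ 2))

/-! ### Task statements -/

/-- ROT: rotations preserve the law of the pair (Mathlib: `IsGaussian.map_rotation_eq_self`). -/
def S_ROT : Prop := ∀ (n d : ℕ) (t : ℝ),
  MeasurePreserving (rot (n := n) (d := d) t) (PP n d) (PP n d)

/-- MV: average over the rotations and the mean value property on the unit disc. -/
def S_MV : Prop := ∀ (n d : ℕ) (F : V n d × V n d → ℂ) (H : V n d × V n d → ℂ → ℂ),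
  Measurable F → Integrable F (PP n d) →
  (∀ᵐ Z ∂(PP n d), DiffContOnCl ℂ (H Z) (Metric.ball 0 1) ∧
    ∀ t : ℝ, F (rot t Z) = H Z (Complex.exp (Complex.I * t))) →
  ∫ Z, F Z ∂(PP n d) = ∫ Z, H Z 0 ∂(PP n d)

/-- NZ: almost surely no form vanishes. -/
def S_NZ : Prop := ∀ (n d : ℕ) (l : Fin d → ((Fin n → ℝ) →ₗ[ℝ] ℝ)) (ε : ℝ), 0 < ε →
  ∀ᵐ w ∂(mu n d), ∀ k, Lf l ε k w ≠ 0

/-- AB: the integral of `FF`. -/
def S_AB : Prop := ∀ (n d : ℕ) (l : Fin d → ((Fin n → ℝ) →ₗ[ℝ] ℝ)) (ε δ : ℝ), 0 < ε → 0 < δ →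
  δ < 1 → ∀ p q : Fin d → ℕ, Integrable (FF l ε δ p q) (PP n d) →
  ∫ Z, FF l ε δ p q Z ∂(PP n d) = ∏ k, (if q k = 0 then (((1 + δ : ℝ) : ℂ) ^ (p k))⁻¹ else 0)

/-- I0: `FF` with `q = 0` is integrable (bounded). -/
def S_I0 : Prop := ∀ (n d : ℕ) (l : Fin d → ((Fin n → ℝ) →ₗ[ℝ] ℝ)) (ε δ : ℝ), 0 < ε → 0 < δ →
  ∀ p : Fin d → ℕ, Integrable (FF l ε δ p (fun _ => 0)) (PP n d)

/-- I2: `FF` with `q = e_i + e_j`, `i ≠ j`, is integrable. -/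
def S_I2 : Prop := ∀ (n d : ℕ) (l : Fin d → ((Fin n → ℝ) →ₗ[ℝ] ℝ)) (ε δ : ℝ), 0 < ε → 0 < δ →
  ∀ p : Fin d → ℕ, (∀ k, 1 ≤ p k) → ∀ i j : Fin d, i ≠ j →
  Integrable (FF l ε δ p (qq i j)) (PP n d)

/-- CHF: characteristic function of the forms. -/
def S_CHF : Prop := ∀ (n d : ℕ) (l : Fin d → ((Fin n → ℝ) →ₗ[ℝ] ℝ)) (ε : ℝ) (c : Fin d → ℝ),
  ∫ w, Complex.exp (-Complex.I * ((∑ k, c k * Lf l ε k w : ℝ) : ℂ)) ∂(mu n d)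
    = ((Real.exp (-(1 / 2) * VV l ε c) : ℝ) : ℂ)

/-- VN: the variance is nonnegative. -/
def S_VN : Prop := ∀ (n d : ℕ) (l : Fin d → ((Fin n → ℝ) →ₗ[ℝ] ℝ)) (ε : ℝ) (c : Fin d → ℝ),
  0 ≤ VV l ε c

/-- FH: integrate out the second Gaussian vector. -/
def S_FH : Prop := ∀ (n d : ℕ) (l : Fin d → ((Fin n → ℝ) →ₗ[ℝ] ℝ)) (ε δ : ℝ), 0 < ε → 0 < δ →
  ∀ p q : Fin d → ℕ, (∀ k, 1 ≤ p k) → ∀ x : Fin d → ℝ, (∀ k, x k ≠ 0) →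
  ∫ h, (∏ k, fac δ (p k) (q k) (x k) (Lf l ε k h)) ∂(mu n d)
    = ((∫ a, (∏ k, a k ^ (p k + q k - 1) * Real.exp (-(δ * a k)) /
          (Real.Gamma ((p k + q k : ℕ) : ℝ) * x k ^ (q k)))
        * Real.exp (-(1 / 2) * VV l ε (fun k => a k / x k)) ∂(orth d) : ℝ) : ℂ)

/-- KEY: the convexity inequality for a fixed first vector. -/
def S_KEY : Prop := ∀ (n d : ℕ) (l : Fin d → ((Fin n → ℝ) →ₗ[ℝ] ℝ)) (ε δ : ℝ), 0 < ε → 0 < δ →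
  ∀ p : Fin d → ℕ, (∀ k, 1 ≤ p k) → ∀ x : Fin d → ℝ, (∀ k, x k ≠ 0) →
  (∫ h, (∏ k, fac δ (p k) 0 (x k) (Lf l ε k h)) ∂(mu n d)).re
    + (1 / 2) * ∑ i, ∑ j, (if i = j then 0 else GG l ε i j * p i * p j *
        (∫ h, (∏ k, fac δ (p k) (qq i j k) (x k) (Lf l ε k h)) ∂(mu n d)).re)
    ≤ ∏ k, phi δ (p k) (GG l ε k k) (x k)

/-- M1: the main inequality before `δ → 0`. -/
def S_M1 : Prop := ∀ (n d : ℕ) (l : Fin d → ((Fin n → ℝ) →ₗ[ℝ] ℝ)) (ε δ : ℝ), 0 < ε → 0 < δ →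
  δ < 1 → ∀ p : Fin d → ℕ, (∀ k, 1 ≤ p k) →
  ∏ k, ((1 + δ) ^ (p k))⁻¹ ≤ ∫ w, (∏ k, phi δ (p k) (GG l ε k k) (Lf l ε k w)) ∂(mu n d)

/-- PHI: bounds for `phi`. -/
def S_PHI : Prop := ∀ (δ : ℝ) (p : ℕ) (G x : ℝ), 0 < δ → 1 ≤ p → 0 < G → x ≠ 0 →
  0 ≤ phi δ p G x ∧ phi δ p G x ≤ rho p G * |x| ^ p

/-- PB: `phi` is bounded and measurable. -/
def S_PB : Prop := ∀ (δ : ℝ) (p : ℕ) (G : ℝ), 0 < δ → 1 ≤ p → 0 < G →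
  Measurable (fun x => phi δ p G x) ∧ ∀ x, 0 ≤ phi δ p G x ∧ phi δ p G x ≤ (δ ^ p)⁻¹

/-- GP: the variances are positive. -/
def S_GP : Prop := ∀ (n d : ℕ) (l : Fin d → ((Fin n → ℝ) →ₗ[ℝ] ℝ)) (ε : ℝ), 0 < ε →
  ∀ k, 0 < GG l ε k k

/-- MOM: the moment and `rho` are inverse to each other. -/
def S_MOM : Prop := ∀ (n d : ℕ) (l : Fin d → ((Fin n → ℝ) →ₗ[ℝ] ℝ)) (ε : ℝ), 0 < ε →
  ∀ (p : ℕ), 1 ≤ p → ∀ k, rho p (GG l ε k k) * ∫ w, |Lf l ε k w| ^ p ∂(mu n d) = 1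

/-- IP: products of powers of the forms are integrable. -/
def S_IP : Prop := ∀ (n d : ℕ) (l : Fin d → ((Fin n → ℝ) →ₗ[ℝ] ℝ)) (ε : ℝ) (p : Fin d → ℕ),
  Integrable (fun w => ∏ k, |Lf l ε k w| ^ (p k)) (mu n d)

/-- F1: the product inequality for the perturbed forms. -/
def S_F1 : Prop := ∀ (n d : ℕ) (l : Fin d → ((Fin n → ℝ) →ₗ[ℝ] ℝ)) (ε : ℝ), 0 < ε →
  ∀ p : Fin d → ℕ, (∀ k, 1 ≤ p k) →
  ∏ k, ∫ w, |Lf l ε k w| ^ (p k) ∂(mu n d) ≤ ∫ w, ∏ k, |Lf l ε k w| ^ (p k) ∂(mu n d)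

/-- LIM: the limit `ε → 0` of the product moments. -/
def S_LIM : Prop := ∀ (n d : ℕ) (l : Fin d → ((Fin n → ℝ) →ₗ[ℝ] ℝ)) (p : Fin d → ℕ),
  Filter.Tendsto (fun ε : ℝ => ∫ w, ∏ k, |Lf l ε k w| ^ (p k) ∂(mu n d))
    (nhdsWithin 0 (Set.Ioi 0)) (nhds (∫ g, ∏ k, |l k g| ^ (p k) ∂(gam n)))

/-- F2: the Gaussian product inequality with arbitrary integer exponents. -/
def S_F2 : Prop := ∀ (n d : ℕ) (l : Fin d → ((Fin n → ℝ) →ₗ[ℝ] ℝ)) (p : Fin d → ℕ),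
  (∀ k, 1 ≤ p k) →
  ∏ k, ∫ g, |l k g| ^ (p k) ∂(gam n) ≤ ∫ g, ∏ k, |l k g| ^ (p k) ∂(gam n)

end H780GP
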