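import Pool.Agent.H780R2.GP.Defs

/-!
Task GP (helper793): the variances of the perturbed forms are positive.
-/

set_option autoImplicit false
open MeasureTheory ProbabilityTheory

namespace H780GP

theorem gp_gam (n : ℕ) : IsProbabilityMeasure (gam n) := by
  unfold gam
  infer_instance

theorem gp_eval (n : ℕ) (i : Fin n) :
    MeasurePreserving (fun g : Fin n → ℝ => g i) (gam n) (gaussianReal 0 1) := by
  unfold gam
  exact measurePreserving_eval _ i

theorem gp_memLp_eval (n : ℕ) (i : Fin n) : MemLp (fun g : Fin n → ℝ => g i) 2 (gam n) := by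
  have h : MemLp (fun x : ℝ => x) 2 (gaussianReal 0 1) := memLp_id_gaussianReal 2
  exact h.comp_measurePreserving (gp_eval n i)

theorem gp_memLp_lin (n : ℕ) (l : (Fin n → ℝ) →ₗ[ℝ] ℝ) : MemLp (fun g => l g) 2 (gam n) := by
  have h : (fun g => l g) = fun g => ∑ i, l (Pi.single i 1) * g i := by
    funext g
    conv_lhs => rw [LinearMap.pi_apply_eq_sum_univ l g]
    refine Finset.sum_congr rfl fun i _ => ?_
    rw [smul_eq_mul, mul_comm]
    congr 2
    funext j
    simp [Pi.single_apply, eq_comm]
  rw [h]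
  exact memLp_finsetSum _ fun i _ => (gp_memLp_eval n i).const_mul _

theorem gp_mean (n : ℕ) (i : Fin n) : ∫ g, g i ∂(gam n) = 0 := by
  have h := (gp_eval n i).map_eq
  have h1 : ∫ x, x ∂(Measure.map (fun g : Fin n → ℝ => g i) (gam n)) = ∫ g, g i ∂(gam n) :=
    integral_map_of_stronglyMeasurable (gp_eval n i).measurable stronglyMeasurable_id
  rw [← h1, h]
  exact integral_id_gaussianReal

theorem gp_sq (n : ℕ) (i : Fin n) : ∫ g, g i ^ 2 ∂(gam n) = 1 := by
  have h := (gp_eval n i).map_eq
  have h1 : ∫ x, x ^ 2 ∂(Measure.map (fun g : Fin n → ℝ => g i) (gam n)) =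
      ∫ g, g i ^ 2 ∂(gam n) :=
    integral_map_of_stronglyMeasurable (f := fun x : ℝ => x ^ 2) (gp_eval n i).measurable
      (by fun_prop)
  rw [← h1, h]
  have h2 := variance_fun_id_gaussianReal (μ := 0) (v := 1)
  rw [variance_eq_integral (by fun_prop)] at h2
  simpa [integral_id_gaussianReal] using h2

theorem t_GP : S_GP := by
  intro n d l ε hε k
  have := gp_gam n
  have := gp_gam d
  have hf : MemLp (fun w : V n d => l k w.1) 2 (mu n d) :=
    (gp_memLp_lin n (l k)).comp_measurePreserving measurePreserving_fst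
  have hg : MemLp (fun w : V n d => w.2 k) 2 (mu n d) :=
    (gp_memLp_eval d k).comp_measurePreserving measurePreserving_snd
  have e1 : Integrable (fun w : V n d => (l k w.1) ^ 2) (mu n d) := hf.integrable_sq
  have e2 : Integrable (fun w : V n d => (w.2 k) ^ 2) (mu n d) := hg.integrable_sq
  have e3 : Integrable (fun w : V n d => l k w.1 * w.2 k) (mu n d) := hf.integrable_mul hg
  have h3 : ∫ w : V n d, l k w.1 * w.2 k ∂(mu n d) = 0 := by
    unfold mu
    have h := integral_prod_mul (μ := gam n) (ν := gam d) (fun x => l k x)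
      (fun y : Fin d → ℝ => y k)
    rw [h, gp_mean, mul_zero]
  have h2 : ∫ w : V n d, (w.2 k) ^ 2 ∂(mu n d) = 1 := by
    unfold mu
    have h := integral_prod_mul (μ := gam n) (ν := gam d) (fun _ => (1 : ℝ))
      (fun y : Fin d → ℝ => y k ^ 2)
    simp only [one_mul] at h
    rw [h, gp_sq]
    simp
  have h1 : 0 ≤ ∫ w : V n d, (l k w.1) ^ 2 ∂(mu n d) := integral_nonneg fun w => sq_nonneg _
  have h : GG l ε k k = ∫ w : V n d, ((l k w.1) ^ 2 + (2 * ε) * (l k w.1 * w.2 k) +
      ε ^ 2 * (w.2 k) ^ 2) ∂(mu n d) := by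
    unfold GG Lf
    refine integral_congr_ae (Filter.Eventually.of_forall fun w => ?_)
    show _ = _
    ring
  have e4 : Integrable (fun w : V n d => (2 * ε) * (l k w.1 * w.2 k)) (mu n d) := e3.const_mul _
  have e5 : Integrable (fun w : V n d => ε ^ 2 * (w.2 k) ^ 2) (mu n d) := e2.const_mul _
  have e6 : Integrable (fun w : V n d => (l k w.1) ^ 2 + (2 * ε) * (l k w.1 * w.2 k))
      (mu n d) := e1.add e4
  rw [h, integral_add e6 e5, integral_add e1 e4, integral_const_mul, integral_const_mul, h3, h2]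
  nlinarith [pow_pos hε 2]

end H780GP
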