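import Pool.Agent.H780R2.GP.Defs

set_option autoImplicit false
open MeasureTheory ProbabilityTheory

namespace H780GP
namespace ABaux

lemma meas_Lf {n d : ℕ} (l : Fin d → ((Fin n → ℝ) →ₗ[ℝ] ℝ)) (ε : ℝ) (k : Fin d) :
    Measurable (fun w : V n d => Lf l ε k w) := by
  have h1 : Continuous (l k) := LinearMap.continuous_of_finiteDimensional (l k)
  unfold Lf
  have h2 : Continuous (fun w : V n d => (l k) w.1 + ε * w.2 k) := by fun_prop
  exact h2.measurable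

lemma meas_FF {n d : ℕ} (l : Fin d → ((Fin n → ℝ) →ₗ[ℝ] ℝ)) (ε δ : ℝ) (p q : Fin d → ℕ) :
    Measurable (FF l ε δ p q) := by
  unfold FF fac
  have h := fun k => meas_Lf l ε k
  refine Finset.measurable_prod _ (fun k _ => ?_)
  have h1 : Measurable (fun Z : V n d × V n d => ((Lf l ε k Z.1 : ℝ) : ℂ)) :=
    Complex.measurable_ofReal.comp ((h k).comp measurable_fst)
  have h2 : Measurable (fun Z : V n d × V n d => ((Lf l ε k Z.2 : ℝ) : ℂ)) :=
    Complex.measurable_ofReal.comp ((h k).comp measurable_snd)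
  exact (h1.pow_const _).div (((h1.const_mul _).add (h2.const_mul _)).pow_const _)

lemma Lf_rot1 {n d : ℕ} (l : Fin d → ((Fin n → ℝ) →ₗ[ℝ] ℝ)) (ε : ℝ) (k : Fin d) (t : ℝ)
    (Z : V n d × V n d) :
    Lf l ε k (rot t Z).1 = Real.cos t * Lf l ε k Z.1 + Real.sin t * Lf l ε k Z.2 := by
  simp only [Lf, rot, Prod.fst_add, Prod.smul_fst, Prod.snd_add, Prod.smul_snd, map_add, map_smul,
    smul_eq_mul, Pi.add_apply, Pi.smul_apply]
  ring

lemma Lf_rot2 {n d : ℕ} (l : Fin d → ((Fin n → ℝ) →ₗ[ℝ] ℝ)) (ε : ℝ) (k : Fin d) (t : ℝ)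
    (Z : V n d × V n d) :
    Lf l ε k (rot t Z).2 = -Real.sin t * Lf l ε k Z.1 + Real.cos t * Lf l ε k Z.2 := by
  simp only [Lf, rot, Prod.fst_add, Prod.smul_fst, Prod.snd_add, Prod.smul_snd, map_add, map_smul,
    smul_eq_mul, Pi.add_apply, Pi.smul_apply]
  ring

lemma fac_rot (δ : ℝ) (p q : ℕ) (x θ t : ℝ) :
    fac δ p q (Real.cos t * x + Real.sin t * θ) (-Real.sin t * x + Real.cos t * θ)
      = (2 * Complex.exp (Complex.I * t)) ^ q *
        (((x : ℂ) + Complex.I * (θ : ℂ)) + Complex.exp (Complex.I * t) ^ 2 *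
          ((x : ℂ) - Complex.I * (θ : ℂ))) ^ p /
        ((1 + (δ : ℂ)) * ((x : ℂ) + Complex.I * (θ : ℂ)) - (1 - (δ : ℂ)) *
          Complex.exp (Complex.I * t) ^ 2 * ((x : ℂ) - Complex.I * (θ : ℂ))) ^ (p + q) := by
  unfold fac
  set v := Complex.exp (Complex.I * t) with hv
  have hv0 : v ≠ 0 := Complex.exp_ne_zero _
  have hve : v = (Real.cos t : ℂ) + (Real.sin t : ℂ) * Complex.I := by
    rw [hv, mul_comm, Complex.exp_mul_I]; simp
  have hcs : (Real.cos t : ℂ) ^ 2 + (Real.sin t : ℂ) ^ 2 = 1 := by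
    have := Real.cos_sq_add_sin_sq t
    exact_mod_cast this
  have hI : Complex.I * Complex.I = -1 := Complex.I_mul_I
  generalize hc : (Real.cos t : ℂ) = c at *
  generalize hs : (Real.sin t : ℂ) = s at *
  have hA : v * (((Real.cos t * x + Real.sin t * θ : ℝ) : ℂ) +
      Complex.I * ((-Real.sin t * x + Real.cos t * θ : ℝ) : ℂ)) = (x : ℂ) + Complex.I * θ := by
    push_cast
    rw [← Complex.ofReal_cos, ← Complex.ofReal_sin, hc, hs, hve]
    linear_combination ((x : ℂ) + Complex.I * θ) * hcs + (s ^ 2 * (-(x:ℂ)) + s * c * θ ) * hI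
  have hB : (((Real.cos t * x + Real.sin t * θ : ℝ) : ℂ) -
      Complex.I * ((-Real.sin t * x + Real.cos t * θ : ℝ) : ℂ)) = v * ((x : ℂ) - Complex.I * θ) := by
    push_cast
    rw [← Complex.ofReal_cos, ← Complex.ofReal_sin, hc, hs, hve]
    linear_combination (s * θ) * hI
  generalize ((Real.cos t * x + Real.sin t * θ : ℝ) : ℂ) = X at *
  generalize ((-Real.sin t * x + Real.cos t * θ : ℝ) : ℂ) = T at *
  have e1 : X = (2 * v)⁻¹ *
      (((x : ℂ) + Complex.I * (θ : ℂ)) + v ^ 2 * ((x : ℂ) - Complex.I * (θ : ℂ))) := by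
    rw [eq_comm, inv_mul_eq_iff_eq_mul₀ (by simp [hv0])]
    linear_combination - hA - v * hB
  have e2 : (δ : ℂ) * X + Complex.I * T
      = (2 * v)⁻¹ * ((1 + (δ : ℂ)) * ((x : ℂ) + Complex.I * (θ : ℂ)) - (1 - (δ : ℂ)) *
          v ^ 2 * ((x : ℂ) - Complex.I * (θ : ℂ))) := by
    rw [eq_comm, inv_mul_eq_iff_eq_mul₀ (by simp [hv0])]
    linear_combination - (1 + (δ : ℂ)) * hA + (1 - (δ : ℂ)) * v * hB
  rw [e2, e1, mul_pow, mul_pow, pow_add (2 * v)⁻¹ p q]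
  have h2v : (2 * v) ≠ 0 := by simp [hv0]
  have hq : (2 * v) ^ q = ((2 * v)⁻¹ ^ q)⁻¹ := by
    rw [inv_pow, inv_inv]
  have h3 : (2 * v)⁻¹ ^ p ≠ 0 := pow_ne_zero _ (inv_ne_zero h2v)
  rw [hq, div_eq_mul_inv, div_eq_mul_inv, mul_inv, mul_inv]
  generalize ((2 * v)⁻¹ ^ q)⁻¹ = Q
  generalize (2 * v)⁻¹ ^ p = P at *
  field_simp

/-- The analytic extension of `t ↦ fac (rotated point)` to the unit disc. -/
noncomputable def HH (δ : ℝ) (p q : ℕ) (x θ : ℝ) (v : ℂ) : ℂ :=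
  (2 * v) ^ q * (((x : ℂ) + Complex.I * (θ : ℂ)) + v ^ 2 * ((x : ℂ) - Complex.I * (θ : ℂ))) ^ p /
        ((1 + (δ : ℂ)) * ((x : ℂ) + Complex.I * (θ : ℂ)) - (1 - (δ : ℂ)) *
          v ^ 2 * ((x : ℂ) - Complex.I * (θ : ℂ))) ^ (p + q)

lemma normz (x θ : ℝ) : ‖(x : ℂ) - Complex.I * (θ : ℂ)‖ = ‖(x : ℂ) + Complex.I * (θ : ℂ)‖ := by
  have : (x : ℂ) - Complex.I * (θ : ℂ) = (starRingEnd ℂ) ((x : ℂ) + Complex.I * (θ : ℂ)) := by
    simp [sub_eq_add_neg]
  rw [this, Complex.norm_conj]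

lemma z_ne {x : ℝ} (θ : ℝ) (hx : x ≠ 0) : (x : ℂ) + Complex.I * (θ : ℂ) ≠ 0 := by
  intro h
  have := congrArg Complex.re h
  simp at this
  exact hx this

lemma den_ne {δ : ℝ} (hδ : 0 < δ) (hδ1 : δ < 1) {x : ℝ} (θ : ℝ) (hx : x ≠ 0) {v : ℂ}
    (hv : ‖v‖ ≤ 1) :
    (1 + (δ : ℂ)) * ((x : ℂ) + Complex.I * (θ : ℂ)) - (1 - (δ : ℂ)) *
          v ^ 2 * ((x : ℂ) - Complex.I * (θ : ℂ)) ≠ 0 := by
  intro h
  rw [sub_eq_zero] at h
  have h2 := congrArg norm h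
  rw [norm_mul, norm_mul, norm_mul, norm_pow, normz] at h2
  have hz : 0 < ‖(x : ℂ) + Complex.I * (θ : ℂ)‖ := norm_pos_iff.mpr (z_ne θ hx)
  have h3 : ‖(1 + (δ : ℂ))‖ = 1 + δ := by
    have : (1 + (δ : ℂ)) = ((1 + δ : ℝ) : ℂ) := by push_cast; ring
    rw [this, Complex.norm_real, Real.norm_of_nonneg (by linarith)]
  have h4 : ‖(1 - (δ : ℂ))‖ = 1 - δ := by
    have : (1 - (δ : ℂ)) = ((1 - δ : ℝ) : ℂ) := by push_cast; ring
    rw [this, Complex.norm_real, Real.norm_of_nonneg (by linarith)]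
  rw [h3, h4] at h2
  have h5 : ‖v‖ ^ 2 ≤ 1 := pow_le_one₀ (norm_nonneg _) hv
  have h6 : (1 - δ) * ‖v‖ ^ 2 ≤ (1 - δ) := by nlinarith
  nlinarith [mul_le_mul_of_nonneg_right h6 hz.le]

lemma HH_diff {δ : ℝ} (hδ : 0 < δ) (hδ1 : δ < 1) (p q : ℕ) {x : ℝ} (θ : ℝ) (hx : x ≠ 0) :
    DiffContOnCl ℂ (HH δ p q x θ) (Metric.ball 0 1) := by
  have hcl : closure (Metric.ball (0 : ℂ) 1) = Metric.closedBall 0 1 :=
    closure_ball _ one_ne_zero
  apply DifferentiableOn.diffContOnCl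
  rw [hcl]
  intro v hv
  have hv' : ‖v‖ ≤ 1 := by simpa using hv
  have hd := den_ne hδ hδ1 θ hx hv'
  unfold HH
  apply DifferentiableAt.differentiableWithinAt
  refine DifferentiableAt.div ?_ ?_ (pow_ne_zero _ hd)
  · fun_prop
  · fun_prop

lemma HH_zero {δ : ℝ} (hδ : 0 < δ) (p q : ℕ) {x : ℝ} (θ : ℝ) (hx : x ≠ 0) :
    HH δ p q x θ 0 = if q = 0 then (((1 + δ : ℝ) : ℂ) ^ p)⁻¹ else 0 := by
  unfold HH
  split_ifs with h
  · subst h
    have hz := z_ne θ hx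
    have h1 : (1 + (δ : ℂ)) ≠ 0 := by
      have : (1 + (δ : ℂ)) = ((1 + δ : ℝ) : ℂ) := by push_cast; ring
      rw [this]
      exact Complex.ofReal_ne_zero.mpr (by positivity)
    have h2 : ((x : ℂ) + Complex.I * (θ : ℂ)) ^ p ≠ 0 := pow_ne_zero _ hz
    simp only [mul_zero, pow_zero, one_mul, ne_eq, OfNat.ofNat_ne_zero, not_false_eq_true,
      zero_pow, zero_mul, add_zero, sub_zero]
    push_cast
    rw [mul_pow]
    field_simp
  · simp [h]

end ABaux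

open ABaux in
theorem t_AB (hMV : S_MV) (hNZ : S_NZ) : S_AB := by
  intro n d l ε δ hε hδ hδ1 p q hint
  have hnz : ∀ᵐ Z ∂(PP n d), ∀ k, Lf l ε k Z.1 ≠ 0 := by
    have h1 := hNZ n d l ε hε
    have h2 : Filter.Tendsto (Prod.fst : V n d × V n d → V n d) (ae (PP n d)) (ae (mu n d)) := by
      unfold PP
      exact Measure.quasiMeasurePreserving_fst.tendsto_ae
    exact h2.eventually h1
  have key := hMV n d (FF l ε δ p q)
    (fun Z v => ∏ k, HH δ (p k) (q k) (Lf l ε k Z.1) (Lf l ε k Z.2) v)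
    (meas_FF l ε δ p q) hint ?_
  · rw [key]
    have : ∀ᵐ Z ∂(PP n d), (∏ k, HH δ (p k) (q k) (Lf l ε k Z.1) (Lf l ε k Z.2) 0)
        = ∏ k, (if q k = 0 then (((1 + δ : ℝ) : ℂ) ^ (p k))⁻¹ else 0) := by
      filter_upwards [hnz] with Z hZ
      exact Finset.prod_congr rfl (fun k _ => HH_zero hδ _ _ _ (hZ k))
    rw [integral_congr_ae this]
    have hp : IsProbabilityMeasure (PP n d) := by
      unfold PP mu gam
      infer_instance
    rw [integral_const]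
    simp
  · filter_upwards [hnz] with Z hZ
    refine ⟨?_, ?_⟩
    · have hall : ∀ k, DiffContOnCl ℂ (HH δ (p k) (q k) (Lf l ε k Z.1) (Lf l ε k Z.2))
          (Metric.ball 0 1) := fun k => HH_diff hδ hδ1 _ _ _ (hZ k)
      constructor
      · have := fun k => (hall k).differentiableOn
        exact DifferentiableOn.fun_finsetProd (fun k _ => this k)
      · exact continuousOn_finsetProd _ (fun k _ => (hall k).continuousOn)
    · intro t
      unfold FF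
      refine Finset.prod_congr rfl (fun k _ => ?_)
      rw [Lf_rot1, Lf_rot2, fac_rot]
      rfl

end H780GP
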