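import Pool.Agent.H780R2.GP.Defs

set_option autoImplicit false
open MeasureTheory ProbabilityTheory

namespace H780GP

theorem chf_isGaussian_gam (n : ℕ) : IsGaussian (gam n) := by
  have h1 : HasGaussianLaw (fun (ω : Fin n → ℝ) => (fun i => ω i)) (gam n) := by
    refine iIndepFun.hasGaussianLaw (X := fun (i : Fin n) (ω : Fin n → ℝ) => ω i) ?_ ?_
    · intro i
      refine ⟨?_⟩
      have h2 := (measurePreserving_eval (fun _ : Fin n => gaussianReal 0 1) i).map_eq
      have h3 : (gam n).map (fun ω : Fin n → ℝ => ω i) = gaussianReal 0 1 := h2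
      rw [h3]
      infer_instance
    · exact iIndepFun_pi (μ := fun _ : Fin n => gaussianReal 0 1)
        (X := fun (_ : Fin n) (x : ℝ) => x) (fun i => aemeasurable_id)
  have h4 := h1.isGaussian_map
  have h5 : (gam n).map (fun (ω : Fin n → ℝ) => (fun i => ω i)) = gam n := Measure.map_id'
  rwa [h5] at h4

theorem chf_gam_mean (n : ℕ) (M : (Fin n → ℝ) →L[ℝ] ℝ) : ∫ x, M x ∂(gam n) = 0 := by
  have h1 : ∀ x : Fin n → ℝ, M x = ∑ i, x i * M (fun j => if i = j then 1 else 0) := by
    intro x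
    exact LinearMap.pi_apply_eq_sum_univ (M : (Fin n → ℝ) →ₗ[ℝ] ℝ) x
  have hint : ∀ i : Fin n, Integrable (fun x : Fin n → ℝ => x i) (gam n) := by
    intro i
    have : Integrable (fun x : ℝ => x) (gaussianReal 0 1) := IsGaussian.integrable_id
    exact integrable_comp_eval (μ := fun _ : Fin n => gaussianReal 0 1) (i := i) this
  have h3 : ∫ x, M x ∂(gam n) = ∫ x : Fin n → ℝ, ∑ i, x i * M (fun j => if i = j then 1 else 0)
      ∂(gam n) := integral_congr_ae (Filter.Eventually.of_forall h1)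
  rw [h3, integral_finsetSum _ fun i _ => (hint i).mul_const _]
  apply Finset.sum_eq_zero
  intro i _
  rw [integral_mul_const]
  have h2 : ∫ x : Fin n → ℝ, x i ∂(gam n) = 0 := by
    have h4 : ∫ x : Fin n → ℝ, x i ∂(gam n) = ∫ x : ℝ, x ∂(gaussianReal 0 1) :=
      integral_comp_eval (μ := fun _ : Fin n => gaussianReal 0 1) (i := i) (f := fun x : ℝ => x)
        aestronglyMeasurable_id
    rw [h4]
    exact integral_id_gaussianReal
  rw [h2, zero_mul]

theorem chf_isGaussian_mu (n d : ℕ) : IsGaussian (mu n d) := by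
  haveI := chf_isGaussian_gam n
  haveI := chf_isGaussian_gam d
  unfold mu
  infer_instance

theorem chf_mu_mean (n d : ℕ) (M : V n d →L[ℝ] ℝ) : ∫ x, M x ∂(mu n d) = 0 := by
  haveI := chf_isGaussian_gam n
  haveI := chf_isGaussian_gam d
  have h1 := integral_continuousLinearMap_prod' (μ := gam n) (ν := gam d) (L := M)
    (IsGaussian.integrable_dual (gam n) (M.comp (.inl ℝ _ _)))
    (IsGaussian.integrable_dual (gam d) (M.comp (.inr ℝ _ _)))
  have h2 : ∫ x, M x ∂(mu n d) = ∫ x, M x ∂((gam n).prod (gam d)) := rfl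
  rw [h2, h1]
  have h3 := chf_gam_mean n (M.comp (.inl ℝ _ _))
  have h4 := chf_gam_mean d (M.comp (.inr ℝ _ _))
  rw [h3, h4, add_zero]

/-- the form as a continuous linear map -/
noncomputable def chfL {n d : ℕ} (l : Fin d → ((Fin n → ℝ) →ₗ[ℝ] ℝ)) (ε : ℝ) (k : Fin d) :
    V n d →L[ℝ] ℝ :=
  LinearMap.toContinuousLinearMap ((l k).comp (LinearMap.fst ℝ (Fin n → ℝ) (Fin d → ℝ)) +
    ε • (LinearMap.proj k).comp (LinearMap.snd ℝ (Fin n → ℝ) (Fin d → ℝ)))

theorem chfL_apply {n d : ℕ} (l : Fin d → ((Fin n → ℝ) →ₗ[ℝ] ℝ)) (ε : ℝ) (k : Fin d)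
    (w : V n d) : chfL l ε k w = Lf l ε k w := rfl

theorem t_CHF : S_CHF := by
  intro n d l ε c
  haveI := chf_isGaussian_mu n d
  set L : V n d →L[ℝ] ℝ := -∑ k, c k • chfL l ε k with hL
  have hLw : ∀ w, L w = -∑ k, c k * Lf l ε k w := by
    intro w
    rw [hL]
    simp only [ContinuousLinearMap.neg_apply, ContinuousLinearMap.sum_apply,
      ContinuousLinearMap.smul_apply, chfL_apply, smul_eq_mul]
  have h1 : ∫ w, Complex.exp (-Complex.I * ((∑ k, c k * Lf l ε k w : ℝ) : ℂ)) ∂(mu n d) =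
      charFunDual (mu n d) L := by
    rw [charFunDual_apply]
    apply integral_congr_ae
    refine Filter.Eventually.of_forall fun w => ?_
    show Complex.exp (-Complex.I * ((∑ k, c k * Lf l ε k w : ℝ) : ℂ)) =
      Complex.exp ((L w : ℂ) * Complex.I)
    rw [hLw w]
    congr 1
    push_cast
    ring
  rw [h1, IsGaussian.charFunDual_eq]
  have hmean : ∫ w, L w ∂(mu n d) = 0 := chf_mu_mean n d L
  have hmeanC : ∫ w, ((L w : ℝ) : ℂ) ∂(mu n d) = 0 := by
    rw [integral_complex_ofReal, hmean]; simp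
  have hmem : ∀ k, MemLp (fun w => Lf l ε k w) 2 (mu n d) := fun k =>
    IsGaussian.memLp_dual (mu n d) (chfL l ε k) 2 (by simp)
  have hvar : Var[L; mu n d] = VV l ε c := by
    rw [variance_of_integral_eq_zero (by fun_prop) hmean]
    have h2 : ∀ w, L w ^ 2 = ∑ i, ∑ j, c i * c j * (Lf l ε i w * Lf l ε j w) := by
      intro w
      rw [hLw w, neg_sq, sq, Finset.sum_mul_sum]
      apply Finset.sum_congr rfl
      intro i _
      apply Finset.sum_congr rfl
      intro j _
      ring
    have h3 : ∫ w, L w ^ 2 ∂(mu n d) =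
        ∫ w, ∑ i, ∑ j, c i * c j * (Lf l ε i w * Lf l ε j w) ∂(mu n d) :=
      integral_congr_ae (Filter.Eventually.of_forall h2)
    have hint : ∀ i j, Integrable (fun w => c i * c j * (Lf l ε i w * Lf l ε j w)) (mu n d) :=
      fun i j => ((hmem i).integrable_mul (hmem j)).const_mul _
    rw [h3, integral_finsetSum _ fun i _ => integrable_finset_sum _ fun j _ => hint i j]
    unfold VV GG
    apply Finset.sum_congr rfl
    intro i _
    rw [integral_finsetSum _ fun j _ => hint i j]
    apply Finset.sum_congr rfl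
    intro j _
    rw [integral_const_mul]
  rw [hvar, hmeanC]
  rw [Complex.ofReal_exp]
  congr 1
  push_cast
  ring

end H780GP
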