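import Pool.Agent.H780R2.GP.Defs

set_option autoImplicit false
open MeasureTheory ProbabilityTheory

namespace H780GP

namespace F1aux

theorem isProb_gam (n : ℕ) : IsProbabilityMeasure (gam n) := by
  unfold gam
  infer_instance

theorem isProb_mu (n d : ℕ) : IsProbabilityMeasure (mu n d) := by
  have := isProb_gam n
  have := isProb_gam d
  unfold mu
  infer_instance

theorem measurable_Lf {n d : ℕ} (l : Fin d → ((Fin n → ℝ) →ₗ[ℝ] ℝ)) (ε : ℝ) (k : Fin d) :
    Measurable (Lf l ε k) := by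
  unfold Lf
  have h1 : Measurable (fun w : V n d => l k w.1) :=
    ((l k).continuous_of_finiteDimensional.measurable).comp measurable_fst
  have h2 : Measurable (fun w : V n d => w.2 k) :=
    (measurable_pi_apply k).comp measurable_snd
  exact h1.add (h2.const_mul ε)

theorem pos_limit {d : ℕ} (p : Fin d → ℕ) (c : ℝ)
    (h : ∀ δ : ℝ, 0 < δ → δ < 1 → ∏ k, ((1 + δ) ^ (p k))⁻¹ ≤ c) : 1 ≤ c := by
  have hcont : ContinuousAt (fun δ : ℝ => ∏ k, ((1 + δ) ^ (p k))⁻¹) 0 := by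
    refine tendsto_finsetProd _ (fun k _ => ?_)
    refine ContinuousAt.inv₀ (f := fun δ : ℝ => (1 + δ) ^ (p k)) (by fun_prop) ?_
    simp
  have h0 : (∏ k, ((1 + (0 : ℝ)) ^ (p k))⁻¹) = 1 := by simp
  have ht : Filter.Tendsto (fun δ : ℝ => ∏ k, ((1 + δ) ^ (p k))⁻¹)
      (nhdsWithin 0 (Set.Ioi 0)) (nhds 1) := by
    have := hcont.tendsto
    rw [h0] at this
    exact this.mono_left nhdsWithin_le_nhds
  refine le_of_tendsto ht ?_
  have : Set.Ioo (0 : ℝ) 1 ∈ nhdsWithin (0 : ℝ) (Set.Ioi 0) :=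
    Ioo_mem_nhdsGT one_pos
  filter_upwards [this] with δ hδ
  exact h δ hδ.1 hδ.2

end F1aux

theorem t_F1 (hM1 : S_M1) (hPHI : S_PHI) (hMOM : S_MOM) (hIP : S_IP) (hGP : S_GP) (hNZ : S_NZ)
    (hPB : S_PB) : S_F1 := by
  intro n d l ε hε p hp
  have hprob := F1aux.isProb_mu n d
  have hG := hGP n d l ε hε
  set I : ℝ := ∫ w, ∏ k, |Lf l ε k w| ^ (p k) ∂(mu n d) with hI
  -- the limit inequality
  have hmain : 1 ≤ (∏ k, rho (p k) (GG l ε k k)) * I := by
    refine F1aux.pos_limit p _ (fun δ hδ hδ1 => ?_)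
    refine (hM1 n d l ε δ hε hδ hδ1 p hp).trans ?_
    rw [hI, ← integral_const_mul]
    have hint1 : Integrable (fun w => ∏ k, phi δ (p k) (GG l ε k k) (Lf l ε k w)) (mu n d) := by
      refine Integrable.of_bound ?_ (∏ k, (δ ^ (p k))⁻¹) ?_
      · refine Measurable.aestronglyMeasurable ?_
        refine Finset.measurable_prod _ (fun k _ => ?_)
        exact (hPB δ (p k) (GG l ε k k) hδ (hp k) (hG k)).1.comp (F1aux.measurable_Lf l ε k)
      · refine Filter.Eventually.of_forall (fun w => ?_)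
        rw [Real.norm_eq_abs, Finset.abs_prod]
        refine Finset.prod_le_prod (fun k _ => abs_nonneg _) (fun k _ => ?_)
        have := (hPB δ (p k) (GG l ε k k) hδ (hp k) (hG k)).2 (Lf l ε k w)
        rw [abs_of_nonneg this.1]
        exact this.2
    have hint2 : Integrable (fun w => (∏ k, rho (p k) (GG l ε k k)) *
        ∏ k, |Lf l ε k w| ^ (p k)) (mu n d) := (hIP n d l ε p).const_mul _
    refine integral_mono_ae hint1 hint2 ?_
    filter_upwards [hNZ n d l ε hε] with w hw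
    show ∏ k, phi δ (p k) (GG l ε k k) (Lf l ε k w) ≤ (∏ k, rho (p k) (GG l ε k k)) *
        ∏ k, |Lf l ε k w| ^ (p k)
    rw [← Finset.prod_mul_distrib]
    refine Finset.prod_le_prod (fun k _ => ?_) (fun k _ => ?_)
    · exact (hPHI δ (p k) (GG l ε k k) (Lf l ε k w) hδ (hp k) (hG k) (hw k)).1
    · exact (hPHI δ (p k) (GG l ε k k) (Lf l ε k w) hδ (hp k) (hG k) (hw k)).2
  have hm0 : 0 ≤ ∏ k, ∫ w, |Lf l ε k w| ^ (p k) ∂(mu n d) :=
    Finset.prod_nonneg (fun k _ => integral_nonneg (fun w => by positivity))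
  have hprod : (∏ k, ∫ w, |Lf l ε k w| ^ (p k) ∂(mu n d)) *
      (∏ k, rho (p k) (GG l ε k k)) = 1 := by
    rw [← Finset.prod_mul_distrib]
    refine Finset.prod_eq_one (fun k _ => ?_)
    rw [mul_comm]
    exact hMOM n d l ε hε (p k) (hp k) k
  have h1 := mul_le_mul_of_nonneg_left hmain hm0
  rw [mul_one, ← mul_assoc, hprod, one_mul] at h1
  exact h1

end H780GP
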