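/-
helper130: final inequality (task F2 of helper780).
-/
import Pool.Agent.H780R2.GP.Defs

set_option autoImplicit false
open MeasureTheory ProbabilityTheory

namespace H780GP

theorem t_F2 (hF1 : S_F1) (hLIM : S_LIM) : S_F2 := by
  intro n d l p hp
  -- single factors
  have hone : ∀ k : Fin d, Filter.Tendsto (fun ε : ℝ => ∫ w, |Lf l ε k w| ^ (p k) ∂(mu n d))
      (nhdsWithin 0 (Set.Ioi 0)) (nhds (∫ g, |l k g| ^ (p k) ∂(gam n))) := by
    intro k
    have h := hLIM n d l (fun k' => if k' = k then p k else 0)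
    have e1 : ∀ x : Fin d → ℝ, ∏ k', |x k'| ^ (if k' = k then p k else 0) = |x k| ^ (p k) := by
      intro x
      rw [Finset.prod_eq_single k]
      · rw [if_pos rfl]
      · intro b _ hb
        rw [if_neg hb, pow_zero]
      · intro h
        exact absurd (Finset.mem_univ k) h
    have e2 : ∀ (ε : ℝ) (w : V n d),
        ∏ k', |Lf l ε k' w| ^ (if k' = k then p k else 0) = |Lf l ε k w| ^ (p k) :=
      fun ε w => e1 (fun k' => Lf l ε k' w)
    have e3 : ∀ g : Fin n → ℝ,
        ∏ k', |l k' g| ^ (if k' = k then p k else 0) = |l k g| ^ (p k) :=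
      fun g => e1 (fun k' => l k' g)
    simp only [e2, e3] at h
    exact h
  refine le_of_tendsto_of_tendsto (tendsto_finsetProd (Finset.univ : Finset (Fin d))
    (fun k _ => hone k)) (hLIM n d l p) ?_
  filter_upwards [self_mem_nhdsWithin] with ε hε
  exact hF1 n d l ε hε p hp

end H780GP
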