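import Pool.Agent.H780R2.GP.Defs

set_option autoImplicit false
open MeasureTheory ProbabilityTheory

namespace H780GP

namespace P_FH

open Set Filter

theorem intb (b : ℝ) (hb : 0 < b) (n : ℕ) :
    IntegrableOn (fun a : ℝ => a ^ n * Real.exp (-(b * a))) (Ioi 0) := by
  have h := integrableOn_rpow_mul_exp_neg_mul_rpow (p := 1) (s := (n : ℝ)) (b := b)
    (by have : (0 : ℝ) ≤ n := Nat.cast_nonneg n
        linarith) one_pos hb
  refine h.congr_fun ?_ measurableSet_Ioi
  intro a _
  simp only [Real.rpow_natCast, Real.rpow_one]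
  congr 2
  ring

theorem normexp (s : ℂ) (a : ℝ) : ‖Complex.exp (-(s * a))‖ = Real.exp (-(s.re * a)) := by
  rw [Complex.norm_exp]
  congr 1
  simp [Complex.mul_re]

theorem gint (s : ℂ) (hs : 0 < s.re) (n : ℕ) :
    IntegrableOn (fun a : ℝ => (a : ℂ) ^ n * Complex.exp (-(s * a))) (Ioi 0) := by
  have h := intb s.re hs n
  refine Integrable.mono' h ?_ ?_
  · apply Continuous.aestronglyMeasurable
    fun_prop
  · rw [ae_restrict_iff' measurableSet_Ioi]
    refine Eventually.of_forall fun a ha => ?_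
    have ha' : (0 : ℝ) < a := ha
    rw [norm_mul, norm_pow, normexp, Complex.norm_real, Real.norm_of_nonneg ha'.le]

theorem gval (s : ℂ) (hs : 0 < s.re) (n : ℕ) :
    ∫ a in Ioi (0 : ℝ), (a : ℂ) ^ n * Complex.exp (-(s * a)) = (n.factorial : ℂ) / s ^ (n + 1) := by
  have hs0 : s ≠ 0 := by
    rintro rfl
    simp at hs
  have hlim : ∀ m : ℕ, Tendsto (fun a : ℝ => (a : ℂ) ^ m * Complex.exp (-(s * a))) atTop (nhds 0) := by
    intro m
    rw [tendsto_zero_iff_norm_tendsto_zero]
    have h := tendsto_rpow_mul_exp_neg_mul_atTop_nhds_zero (m : ℝ) s.re hs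
    refine h.congr' ?_
    filter_upwards [eventually_gt_atTop (0 : ℝ)] with a ha
    rw [norm_mul, norm_pow, normexp, Complex.norm_real, Real.norm_of_nonneg ha.le,
      Real.rpow_natCast]
    congr 2
    ring
  have hdexp : ∀ a : ℝ, HasDerivAt (fun a : ℝ => Complex.exp (-(s * a)))
      (-s * Complex.exp (-(s * a))) a := by
    intro a
    have h1 : HasDerivAt (fun a : ℝ => -(s * (a : ℂ))) (-s) a := by
      have h2 : HasDerivAt (fun a : ℝ => (a : ℂ)) 1 a := Complex.ofRealCLM.hasDerivAt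
      have h3 := (h2.const_mul s).neg
      exact h3.congr_deriv (by ring)
    have h4 := h1.cexp
    rw [mul_comm] at h4
    exact h4
  induction n with
  | zero =>
    have h1 : ∀ a ∈ Ioi (0 : ℝ), HasDerivAt (fun a : ℝ => -(1 / s) * Complex.exp (-(s * a)))
        ((a : ℂ) ^ 0 * Complex.exp (-(s * a))) a := by
      intro a _
      have h2 := (hdexp a).const_mul (-(1 / s))
      refine h2.congr_deriv ?_
      rw [pow_zero]
      field_simp
    have h2 := integral_Ioi_of_hasDerivAt_of_tendsto (f := fun a : ℝ => -(1 / s) * Complex.exp (-(s * a)))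
      (f' := fun a : ℝ => (a : ℂ) ^ 0 * Complex.exp (-(s * a))) (a := 0) (m := 0)
      (by apply Continuous.continuousWithinAt; fun_prop) h1 (gint s hs 0)
      (by
        have h3 := (hlim 0).const_mul (-(1 / s))
        simpa using h3)
    rw [h2]
    simp
  | succ n ih =>
    have h1 : ∀ a ∈ Ioi (0 : ℝ), HasDerivAt (fun a : ℝ => (a : ℂ) ^ (n + 1) * Complex.exp (-(s * a)))
        (((n + 1 : ℕ) : ℂ) * ((a : ℂ) ^ n * Complex.exp (-(s * a))) -
          s * ((a : ℂ) ^ (n + 1) * Complex.exp (-(s * a)))) a := by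
      intro a _
      have h2 : HasDerivAt (fun a : ℝ => (a : ℂ)) 1 a := Complex.ofRealCLM.hasDerivAt
      have h3 := (h2.pow (n + 1)).mul (hdexp a)
      refine h3.congr_deriv ?_
      rw [Nat.add_sub_cancel, Pi.pow_apply]
      push_cast
      ring
    have hi := (gint s hs n).const_mul ((n + 1 : ℕ) : ℂ)
    have hi2 := (gint s hs (n + 1)).const_mul s
    have h2 := integral_Ioi_of_hasDerivAt_of_tendsto
      (f := fun a : ℝ => (a : ℂ) ^ (n + 1) * Complex.exp (-(s * a)))
      (f' := fun a : ℝ => (((n + 1 : ℕ) : ℂ) * ((a : ℂ) ^ n * Complex.exp (-(s * a))) -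
          s * ((a : ℂ) ^ (n + 1) * Complex.exp (-(s * a))))) (a := 0) (m := 0)
      (by apply Continuous.continuousWithinAt; fun_prop) h1 (hi.sub hi2) (hlim (n + 1))
    rw [integral_sub hi hi2, integral_const_mul, integral_const_mul, ih] at h2
    have h3 : s * ∫ a in Ioi (0 : ℝ), (a : ℂ) ^ (n + 1) * Complex.exp (-(s * a)) =
        ((n + 1 : ℕ) : ℂ) * ((n.factorial : ℂ) / s ^ (n + 1)) := by
      have h4 : (0 : ℂ) - ((0 : ℝ) : ℂ) ^ (n + 1) * Complex.exp (-(s * (0 : ℝ))) = 0 := by simp
      rw [h4] at h2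
      exact (sub_eq_zero.mp h2).symm
    rw [Nat.factorial_succ, pow_succ s (n + 1)]
    have h5 : ∫ a in Ioi (0 : ℝ), (a : ℂ) ^ (n + 1) * Complex.exp (-(s * a)) =
        (s * ∫ a in Ioi (0 : ℝ), (a : ℂ) ^ (n + 1) * Complex.exp (-(s * a))) / s := by
      field_simp
    rw [h5, h3]
    push_cast
    field_simp

/-- the one-dimensional integrand (real part of the weight) -/
noncomputable def rk (δ : ℝ) (p q : ℕ) (x a : ℝ) : ℝ :=
  a ^ (p + q - 1) * Real.exp (-(δ * a)) / (Real.Gamma ((p + q : ℕ) : ℝ) * x ^ q)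

theorem rk_int (δ : ℝ) (hδ : 0 < δ) (p q : ℕ) (x : ℝ) :
    Integrable (rk δ p q x) ((volume : Measure ℝ).restrict (Ioi 0)) := by
  have h := (intb δ hδ (p + q - 1)).div_const (Real.Gamma ((p + q : ℕ) : ℝ) * x ^ q)
  exact h

theorem fac_eq (δ : ℝ) (hδ : 0 < δ) (p q : ℕ) (hp : 1 ≤ p) (x : ℝ) (hx : x ≠ 0) (θ : ℝ) :
    fac δ p q x θ = ∫ a in Ioi (0 : ℝ), ((rk δ p q x a : ℝ) : ℂ) *
      Complex.exp (-Complex.I * ((a / x * θ : ℝ) : ℂ)) := by
  obtain ⟨n, hn⟩ : ∃ n, p + q = n + 1 := ⟨p + q - 1, by omega⟩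
  have hxc : (x : ℂ) ≠ 0 := by exact_mod_cast hx
  set s : ℂ := (δ : ℂ) + Complex.I * ((θ / x : ℝ) : ℂ) with hs
  have hsre : 0 < s.re := by
    rw [hs]
    simp [hδ]
  have hs0 : s ≠ 0 := by
    intro h
    rw [h] at hsre
    simp at hsre
  have hG : Real.Gamma ((p + q : ℕ) : ℝ) = (n.factorial : ℝ) := by
    rw [hn]
    push_cast
    exact Real.Gamma_nat_eq_factorial n
  have hfact : (n.factorial : ℂ) ≠ 0 := by
    exact_mod_cast Nat.factorial_ne_zero n
  have h1 : ∀ a : ℝ, ((rk δ p q x a : ℝ) : ℂ) * Complex.exp (-Complex.I * ((a / x * θ : ℝ) : ℂ)) =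
      (1 / ((n.factorial : ℂ) * (x : ℂ) ^ q)) * ((a : ℂ) ^ n * Complex.exp (-(s * a))) := by
    intro a
    unfold rk
    rw [hG, hn, Nat.add_sub_cancel]
    have h2 : Complex.exp (-(s * a)) = Complex.exp (-((δ : ℂ) * a)) *
        Complex.exp (-Complex.I * ((a / x * θ : ℝ) : ℂ)) := by
      rw [← Complex.exp_add]
      congr 1
      rw [hs]
      push_cast
      field_simp
      ring
    rw [h2]
    push_cast
    ring
  simp_rw [h1]
  rw [integral_const_mul, gval s hsre n]
  unfold fac
  have h3 : (δ : ℂ) * (x : ℂ) + Complex.I * (θ : ℂ) = (x : ℂ) * s := by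
    rw [hs]
    push_cast
    field_simp
  rw [h3, mul_pow, hn]
  have h4 : (x : ℂ) ^ (n + 1) = (x : ℂ) ^ p * (x : ℂ) ^ q := by
    rw [← pow_add, hn]
  rw [h4]
  field_simp

theorem cont_Lf {n d : ℕ} (l : Fin d → ((Fin n → ℝ) →ₗ[ℝ] ℝ)) (ε : ℝ) (k : Fin d) :
    Continuous (fun w : V n d => Lf l ε k w) := by
  unfold Lf
  have h1 : Continuous (l k) := LinearMap.continuous_of_finiteDimensional (l k)
  have h2 : Continuous (fun w : V n d => l k w.1) := h1.comp continuous_fst
  have h3 : Continuous (fun w : V n d => w.2 k) := (continuous_apply k).comp continuous_snd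
  exact h2.add (continuous_const.mul h3)

instance (n : ℕ) : IsProbabilityMeasure (gam n) := by
  unfold gam; infer_instance

instance (n d : ℕ) : IsProbabilityMeasure (mu n d) := by
  unfold mu; infer_instance

instance (d : ℕ) : SigmaFinite (orth d) := by
  unfold orth; infer_instance

end P_FH

open P_FH in
theorem t_FH (hCHF : S_CHF) (_hVN : S_VN) : S_FH := by
  intro n d l ε δ _hε hδ p q hp x hx
  -- the integrand
  let W : (Fin d → ℝ) → ℝ := fun a => ∏ k, rk δ (p k) (q k) (x k) (a k)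
  have hWint : Integrable W (orth d) := by
    have := Integrable.fintype_prod (μ := fun _ : Fin d => (volume : Measure ℝ).restrict (Set.Ioi 0))
      (f := fun k a => rk δ (p k) (q k) (x k) a) (fun k => rk_int δ hδ (p k) (q k) (x k))
    exact this
  have hWcont : Continuous W := by
    apply continuous_finsetProd
    intro k _
    unfold rk
    fun_prop
  let F : V n d → (Fin d → ℝ) → ℂ := fun h a =>
    ((W a : ℝ) : ℂ) * Complex.exp (-Complex.I * ((∑ k, a k / x k * Lf l ε k h : ℝ) : ℂ))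
  have h1 : ∀ h : V n d, ∏ k, fac δ (p k) (q k) (x k) (Lf l ε k h) = ∫ a, F h a ∂(orth d) := by
    intro h
    have h2 : ∀ k, fac δ (p k) (q k) (x k) (Lf l ε k h) = ∫ a in Set.Ioi (0 : ℝ),
        ((rk δ (p k) (q k) (x k) a : ℝ) : ℂ) *
          Complex.exp (-Complex.I * ((a / x k * Lf l ε k h : ℝ) : ℂ)) := fun k =>
      fac_eq δ hδ (p k) (q k) (hp k) (x k) (hx k) _
    simp_rw [h2]
    rw [← integral_fintype_prod_eq_prod (𝕜 := ℂ) (ι := Fin d) (E := fun _ => ℝ)
      (μ := fun _ : Fin d => (volume : Measure ℝ).restrict (Set.Ioi 0))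
      (fun k a => ((rk δ (p k) (q k) (x k) a : ℝ) : ℂ) *
          Complex.exp (-Complex.I * ((a / x k * Lf l ε k h : ℝ) : ℂ)))]
    unfold orth
    apply integral_congr_ae
    refine Filter.Eventually.of_forall fun a => ?_
    simp only [F, W]
    rw [Finset.prod_mul_distrib, ← Complex.exp_sum]
    push_cast
    rw [Finset.mul_sum]
  have hFcont : Continuous (Function.uncurry F) := by
    have h3 : ∀ k, Continuous (fun z : V n d × (Fin d → ℝ) => Lf l ε k z.1) := fun k =>
      (cont_Lf l ε k).comp continuous_fst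
    have h4 : ∀ k, Continuous (fun z : V n d × (Fin d → ℝ) => z.2 k) := fun k =>
      (continuous_apply k).comp continuous_snd
    have h5 : Continuous (fun z : V n d × (Fin d → ℝ) =>
        (∑ k, z.2 k / x k * Lf l ε k z.1 : ℝ)) := by
      apply continuous_finsetSum
      intro k _
      exact ((h4 k).div_const _).mul (h3 k)
    have h6 : Continuous (fun z : V n d × (Fin d → ℝ) => W z.2) := hWcont.comp continuous_snd
    exact (Complex.continuous_ofReal.comp h6).mul
      (Complex.continuous_exp.comp (continuous_const.mul (Complex.continuous_ofReal.comp h5)))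
  have hFint : Integrable (Function.uncurry F) ((mu n d).prod (orth d)) := by
    have h3 : Integrable (fun z : V n d × (Fin d → ℝ) => |W z.2|) ((mu n d).prod (orth d)) := by
      exact (hWint.abs).comp_snd (mu n d)
    refine Integrable.mono' h3 hFcont.aestronglyMeasurable ?_
    refine Filter.Eventually.of_forall fun z => ?_
    simp only [Function.uncurry, F]
    rw [norm_mul, Complex.norm_real, Real.norm_eq_abs]
    have h4 : ‖Complex.exp (-Complex.I * ((∑ k, z.2 k / x k * Lf l ε k z.1 : ℝ) : ℂ))‖ = 1 := by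
      rw [neg_mul, mul_comm, ← neg_mul, ← Complex.ofReal_neg]
      exact Complex.norm_exp_ofReal_mul_I _
    rw [h4, mul_one]
  simp_rw [h1]
  rw [integral_integral_swap hFint]
  rw [← integral_complex_ofReal]
  apply integral_congr_ae
  refine Filter.Eventually.of_forall fun a => ?_
  simp only [F]
  rw [integral_const_mul, hCHF n d l ε (fun k => a k / x k)]
  simp only [W, rk]
  push_cast
  rfl

end H780GP
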