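import Pool.Agent.H780R2.GP.Defs

set_option autoImplicit false
open MeasureTheory ProbabilityTheory

namespace H780GP

theorem I0_measurable_Lf {n d : ℕ} (l : Fin d → ((Fin n → ℝ) →ₗ[ℝ] ℝ)) (ε : ℝ) (k : Fin d) :
    Measurable (fun w : V n d => Lf l ε k w) := by
  have h1 : Measurable (fun g : Fin n → ℝ => l k g) :=
    (LinearMap.continuous_of_finiteDimensional (l k)).measurable
  unfold Lf
  have h2 : Measurable (fun w : V n d => w.2 k) := (measurable_pi_apply k).comp measurable_snd
  exact (h1.comp measurable_fst).add (h2.const_mul ε)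

theorem I0_fac_le {δ : ℝ} (hδ : 0 < δ) (p : ℕ) (x θ : ℝ) : ‖fac δ p 0 x θ‖ ≤ (1 / δ) ^ p := by
  unfold fac
  rw [add_zero, norm_div, norm_pow, norm_pow, ← div_pow]
  apply pow_le_pow_left₀ (by positivity)
  rw [Complex.norm_real, Real.norm_eq_abs]
  have h1 : δ * |x| ≤ ‖(δ : ℂ) * (x : ℂ) + Complex.I * (θ : ℂ)‖ := by
    have h2 := Complex.abs_re_le_norm ((δ : ℂ) * (x : ℂ) + Complex.I * (θ : ℂ))
    have h3 : ((δ : ℂ) * (x : ℂ) + Complex.I * (θ : ℂ)).re = δ * x := by simp
    rw [h3, abs_mul, abs_of_pos hδ] at h2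
    exact h2
  rcases (norm_nonneg ((δ : ℂ) * (x : ℂ) + Complex.I * (θ : ℂ))).eq_or_lt with h0 | h0
  · rw [← h0, div_zero]; positivity
  · rw [div_le_div_iff₀ h0 hδ, one_mul, mul_comm]
    exact h1

theorem t_I0 : S_I0 := by
  intro n d l ε δ _ hδ p
  have : IsProbabilityMeasure (gam n) := by unfold gam; infer_instance
  have : IsProbabilityMeasure (gam d) := by unfold gam; infer_instance
  have : IsProbabilityMeasure (mu n d) := by unfold mu; infer_instance
  have : IsProbabilityMeasure (PP n d) := by unfold PP; infer_instance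
  have hm : Measurable (FF l ε δ p (fun _ => 0)) := by
    unfold FF fac
    apply Finset.measurable_prod
    intro k _
    have h1 : Measurable (fun Z : V n d × V n d => Lf l ε k Z.1) :=
      (I0_measurable_Lf l ε k).comp measurable_fst
    have h2 : Measurable (fun Z : V n d × V n d => Lf l ε k Z.2) :=
      (I0_measurable_Lf l ε k).comp measurable_snd
    fun_prop
  refine Integrable.of_bound hm.aestronglyMeasurable (∏ k, (1 / δ) ^ (p k)) ?_
  refine Filter.Eventually.of_forall fun Z => ?_
  unfold FF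
  rw [norm_prod]
  exact Finset.prod_le_prod (fun _ _ => norm_nonneg _) (fun k _ => I0_fac_le hδ _ _ _)

end H780GP
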