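import Pool.Agent.H780R2.GP.Defs

/-!
# I2: `FF` with `q = e_i + e_j` is integrable
-/

set_option autoImplicit false

open MeasureTheory ProbabilityTheory

namespace H780GP

instance I2_prob_gam (n : ℕ) : IsProbabilityMeasure (gam n) := by
  unfold gam
  infer_instance

instance I2_prob_mu (n d : ℕ) : IsProbabilityMeasure (mu n d) := by
  unfold mu
  infer_instance

theorem I2_gauss_le : (gaussianReal 0 1 : Measure ℝ) ≤ volume := by
  rw [gaussianReal_of_var_ne_zero 0 one_ne_zero]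
  conv_rhs => rw [← withDensity_one (μ := (volume : Measure ℝ))]
  refine withDensity_mono (Filter.Eventually.of_forall fun x => ?_)
  show gaussianPDF 0 1 x ≤ 1
  unfold gaussianPDF
  rw [← ENNReal.ofReal_one]
  refine ENNReal.ofReal_le_ofReal ?_
  unfold gaussianPDFReal
  have h1 : (1 : ℝ) ≤ √(2 * Real.pi * ((1 : NNReal) : ℝ)) := by
    rw [Real.one_le_sqrt]
    have := Real.pi_gt_three
    simp only [NNReal.coe_one]
    linarith
  have h2 : (√(2 * Real.pi * ((1 : NNReal) : ℝ)))⁻¹ ≤ 1 := inv_le_one_of_one_le₀ h1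
  have h3 : Real.exp (-(x - 0) ^ 2 / (2 * ((1 : NNReal) : ℝ))) ≤ 1 := by
    rw [Real.exp_le_one_iff]
    simp only [NNReal.coe_one]
    have := sq_nonneg (x - 0)
    linarith
  calc _ ≤ (1 : ℝ) * 1 := mul_le_mul h2 h3 (Real.exp_nonneg _) zero_le_one
    _ = 1 := one_mul 1

theorem I2_one (δ ε : ℝ) (hδ : 0 < δ) (hε : 0 < ε) (x m : ℝ) :
    ∫⁻ y, ENNReal.ofReal (|x| / (δ ^ 2 * x ^ 2 + (m + ε * y) ^ 2)) ∂(gaussianReal 0 1) ≤
      ENNReal.ofReal (Real.pi / (δ * ε)) := by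
  rcases eq_or_ne x 0 with rfl | hx
  · simp
  refine (lintegral_mono' I2_gauss_le le_rfl).trans ?_
  have hax : 0 < |x| := abs_pos.2 hx
  have e1 : ∀ y : ℝ, |x| / (δ ^ 2 * x ^ 2 + (m + ε * y) ^ 2) =
      (1 / (δ ^ 2 * |x|)) * (1 + (m / (δ * |x|) + ε / (δ * |x|) * y) ^ 2)⁻¹ := by
    intro y
    have h1 : (0 : ℝ) < δ ^ 2 * x ^ 2 + (m + ε * y) ^ 2 := by positivity
    have h2 : (0 : ℝ) < 1 + (m / (δ * |x|) + ε / (δ * |x|) * y) ^ 2 := by positivity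
    have h3 : δ ^ 2 * x ^ 2 + (m + ε * y) ^ 2 =
        δ ^ 2 * |x| ^ 2 * (1 + (m / (δ * |x|) + ε / (δ * |x|) * y) ^ 2) := by
      rw [← sq_abs x]
      field_simp
    rw [h3]
    field_simp
  have hc : (0 : ℝ) < ε / (δ * |x|) := by positivity
  have hi1 : Integrable (fun y : ℝ => (1 + (m / (δ * |x|) + ε / (δ * |x|) * y) ^ 2)⁻¹) := by
    exact (integrable_inv_one_add_sq.comp_add_left (m / (δ * |x|))).comp_mul_left' hc.ne'
  have hi2 : Integrable (fun y : ℝ => |x| / (δ ^ 2 * x ^ 2 + (m + ε * y) ^ 2)) := by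
    rw [funext e1]
    exact hi1.const_mul _
  rw [← ofReal_integral_eq_lintegral_ofReal hi2
    (Filter.Eventually.of_forall fun y => by positivity)]
  refine ENNReal.ofReal_le_ofReal (le_of_eq ?_)
  rw [funext e1, integral_const_mul]
  have h4 := Measure.integral_comp_mul_left
    (fun z : ℝ => (1 + (m / (δ * |x|) + z) ^ 2)⁻¹) (ε / (δ * |x|))
  have h5 := integral_add_left_eq_self (μ := (volume : Measure ℝ))
    (fun z : ℝ => (1 + z ^ 2)⁻¹) (m / (δ * |x|))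
  rw [h4, h5, integral_univ_inv_one_add_sq, smul_eq_mul, abs_of_pos (inv_pos.2 hc)]
  field_simp

theorem I2_den (δ x θ : ℝ) :
    ‖(δ : ℂ) * (x : ℂ) + Complex.I * (θ : ℂ)‖ ^ 2 = δ ^ 2 * x ^ 2 + θ ^ 2 := by
  rw [Complex.sq_norm, Complex.normSq_apply]
  simp
  ring

theorem I2_ratio (δ x θ : ℝ) (hδ : 0 < δ) :
    |x| / ‖(δ : ℂ) * (x : ℂ) + Complex.I * (θ : ℂ)‖ ≤ δ⁻¹ := by
  have h := I2_den δ x θ
  set D := ‖(δ : ℂ) * (x : ℂ) + Complex.I * (θ : ℂ)‖ with hD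
  have hD0 : 0 ≤ D := norm_nonneg _
  have h1 : δ * |x| ≤ D := by
    apply abs_le_of_sq_le_sq' _ hD0 |>.2
    rw [mul_pow, sq_abs, h]
    nlinarith [sq_nonneg θ]
  rcases eq_or_lt_of_le hD0 with h2 | h2
  · rw [← h2, div_zero]
    positivity
  · rw [div_le_iff₀ h2, inv_mul_eq_div, le_div_iff₀ hδ]
    linarith

theorem I2_zero (δ : ℝ) (p : ℕ) (x θ : ℝ) (hδ : 0 < δ) : ‖fac δ p 0 x θ‖ ≤ (δ⁻¹) ^ p := by
  unfold fac
  rw [norm_div, norm_pow, norm_pow, add_zero, ← div_pow, Complex.norm_real, Real.norm_eq_abs]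
  exact pow_le_pow_left₀ (by positivity) (I2_ratio δ x θ hδ) _

theorem I2_norm_one (δ : ℝ) (p : ℕ) (x θ : ℝ) (hδ : 0 < δ) (hp : 1 ≤ p) :
    ‖fac δ p 1 x θ‖ ≤ (δ⁻¹) ^ (p - 1) * (|x| / (δ ^ 2 * x ^ 2 + θ ^ 2)) := by
  obtain ⟨r, rfl⟩ : ∃ r, p = r + 1 := ⟨p - 1, by omega⟩
  unfold fac
  rw [norm_div, norm_pow, norm_pow, Complex.norm_real, Real.norm_eq_abs, ← I2_den δ x θ,
    Nat.add_sub_cancel, pow_succ, show r + 1 + 1 = r + 2 by ring, pow_add, mul_div_mul_comm,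
    ← div_pow]
  refine mul_le_mul_of_nonneg_right ?_ (by positivity)
  exact pow_le_pow_left₀ (by positivity) (I2_ratio δ x θ hδ) _

/-- one factor, integrated over one coordinate -/
theorem I2_factor (δ ε : ℝ) (hδ : 0 < δ) (hε : 0 < ε) (p q : ℕ) (hp : 1 ≤ p)
    (hq : q = 0 ∨ q = 1) : ∃ C : ENNReal, C ≠ ⊤ ∧ ∀ x m : ℝ,
      ∫⁻ y, ‖fac δ p q x (m + ε * y)‖ₑ ∂(gaussianReal 0 1) ≤ C := by
  rcases hq with rfl | rfl
  · refine ⟨ENNReal.ofReal ((δ⁻¹) ^ p), ENNReal.ofReal_ne_top, fun x m => ?_⟩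
    calc ∫⁻ y, ‖fac δ p 0 x (m + ε * y)‖ₑ ∂(gaussianReal 0 1)
        ≤ ∫⁻ _, ENNReal.ofReal ((δ⁻¹) ^ p) ∂(gaussianReal 0 1) := by
          refine lintegral_mono fun y => ?_
          rw [← ofReal_norm]
          exact ENNReal.ofReal_le_ofReal (I2_zero δ p x _ hδ)
      _ = _ := by simp
  · refine ⟨ENNReal.ofReal ((δ⁻¹) ^ (p - 1)) * ENNReal.ofReal (Real.pi / (δ * ε)),
      ENNReal.mul_ne_top ENNReal.ofReal_ne_top ENNReal.ofReal_ne_top, fun x m => ?_⟩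
    calc ∫⁻ y, ‖fac δ p 1 x (m + ε * y)‖ₑ ∂(gaussianReal 0 1)
        ≤ ∫⁻ y, ENNReal.ofReal ((δ⁻¹) ^ (p - 1)) *
            ENNReal.ofReal (|x| / (δ ^ 2 * x ^ 2 + (m + ε * y) ^ 2)) ∂(gaussianReal 0 1) := by
          refine lintegral_mono fun y => ?_
          rw [← ofReal_norm, ← ENNReal.ofReal_mul (by positivity)]
          exact ENNReal.ofReal_le_ofReal (I2_norm_one δ p x _ hδ hp)
      _ ≤ _ := by
          rw [lintegral_const_mul' _ _ ENNReal.ofReal_ne_top]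
          exact mul_le_mul_right (I2_one δ ε hδ hε x m) _

theorem I2_meas (δ : ℝ) (p q : ℕ) : Measurable (fun z : ℝ × ℝ => fac δ p q z.1 z.2) := by
  unfold fac
  fun_prop

theorem I2_Lf {n d : ℕ} (l : Fin d → ((Fin n → ℝ) →ₗ[ℝ] ℝ)) (ε : ℝ) (k : Fin d) :
    Measurable (Lf l ε k) := by
  have h := (LinearMap.continuous_of_finiteDimensional (l k)).measurable
  unfold Lf
  fun_prop

theorem I2_FF {n d : ℕ} (l : Fin d → ((Fin n → ℝ) →ₗ[ℝ] ℝ)) (ε δ : ℝ) (p q : Fin d → ℕ) :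
    Measurable (FF l ε δ p q) := by
  unfold FF
  refine Finset.measurable_prod _ fun k _ => ?_
  exact (I2_meas δ (p k) (q k)).comp
    (((I2_Lf l ε k).comp measurable_fst).prodMk ((I2_Lf l ε k).comp measurable_snd))

theorem I2_enorm_prod {d : ℕ} (f : Fin d → ℂ) : ‖∏ k, f k‖ₑ = ∏ k, ‖f k‖ₑ := by
  rw [← ofReal_norm, norm_prod, ENNReal.ofReal_prod_of_nonneg fun k _ => norm_nonneg _]
  refine Finset.prod_congr rfl fun k _ => ofReal_norm _

theorem t_I2 : S_I2 := by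
  intro n d l ε δ hε hδ p hp i j _
  have hm := I2_FF l ε δ p (qq i j)
  have hq : ∀ k, qq i j k = 0 ∨ qq i j k = 1 := by
    intro k
    unfold qq
    split_ifs
    · exact Or.inr rfl
    · exact Or.inl rfl
  choose C hC hC2 using fun k => I2_factor δ ε hδ hε (p k) (qq i j k) (hp k) (hq k)
  refine ⟨hm.aestronglyMeasurable, ?_⟩
  have key : ∀ (w : V n d) (a : Fin n → ℝ),
      ∫⁻ y, ‖FF l ε δ p (qq i j) (w, (a, y))‖ₑ ∂(gam d) ≤ ∏ k, C k := by
    intro w a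
    have h1 : ∀ y : Fin d → ℝ, ‖FF l ε δ p (qq i j) (w, (a, y))‖ₑ =
        ∏ k, ‖fac δ (p k) (qq i j k) (Lf l ε k w) (l k a + ε * y k)‖ₑ := by
      intro y
      unfold FF
      rw [I2_enorm_prod]
      rfl
    rw [lintegral_congr h1]
    have hmk : ∀ k, Measurable (fun y : ℝ =>
        ‖fac δ (p k) (qq i j k) (Lf l ε k w) (l k a + ε * y)‖ₑ) := by
      intro k
      refine Measurable.enorm ?_
      exact (I2_meas δ (p k) (qq i j k)).comp (by fun_prop : Measurable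
        (fun y : ℝ => ((Lf l ε k w : ℝ), l k a + ε * y)))
    have h2 := lintegral_prod_eq_prod_lintegral_of_indepFun (μ := gam d) Finset.univ
      (fun k (y : Fin d → ℝ) =>
        ‖fac δ (p k) (qq i j k) (Lf l ε k w) (l k a + ε * y k)‖ₑ)
      (iIndepFun_pi (μ := fun _ : Fin d => gaussianReal 0 1)
        (X := fun k (y : ℝ) => ‖fac δ (p k) (qq i j k) (Lf l ε k w) (l k a + ε * y)‖ₑ)
        fun k => (hmk k).aemeasurable)
      (fun k => (hmk k).comp (measurable_pi_apply k))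
    rw [h2]
    refine Finset.prod_le_prod' fun k _ => ?_
    have h3 := (measurePreserving_eval (fun _ : Fin d => gaussianReal 0 1) k).lintegral_comp
      (hmk k)
    have h4 : ∫⁻ y : Fin d → ℝ,
        ‖fac δ (p k) (qq i j k) (Lf l ε k w) (l k a + ε * y k)‖ₑ ∂(gam d) =
        ∫⁻ y, ‖fac δ (p k) (qq i j k) (Lf l ε k w) (l k a + ε * y)‖ₑ ∂(gaussianReal 0 1) := h3
    rw [h4]
    exact hC2 k _ _
  have hfin : ∏ k, C k < ⊤ := ENNReal.prod_lt_top fun k _ => (hC k).lt_top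
  rw [hasFiniteIntegral_iff_enorm]
  refine lt_of_le_of_lt ?_ hfin
  unfold PP
  rw [lintegral_prod _ hm.enorm.aemeasurable]
  have key2 : ∀ w : V n d, ∫⁻ h, ‖FF l ε δ p (qq i j) (w, h)‖ₑ ∂(mu n d) ≤ ∏ k, C k := by
    intro w
    have hm2 : Measurable (fun h : V n d => ‖FF l ε δ p (qq i j) (w, h)‖ₑ) :=
      hm.enorm.comp (by fun_prop)
    unfold mu
    rw [lintegral_prod _ hm2.aemeasurable]
    calc _ ≤ ∫⁻ _ : Fin n → ℝ, ∏ k, C k ∂(gam n) := lintegral_mono fun a => key w a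
      _ = _ := by simp
  calc _ ≤ ∫⁻ _ : V n d, ∏ k, C k ∂(mu n d) := lintegral_mono fun w => key2 w
    _ = _ := by simp

end H780GP
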