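import Pool.Agent.H780R2.GP.Defs

/-!
# IP: products of powers of the forms are integrable
-/

set_option autoImplicit false

open MeasureTheory ProbabilityTheory

namespace H780GP

instance IP_prob_gam (n : ℕ) : IsProbabilityMeasure (gam n) := by
  unfold gam
  infer_instance

instance IP_prob_mu (n d : ℕ) : IsProbabilityMeasure (mu n d) := by
  unfold mu
  infer_instance

theorem IP_gam (n : ℕ) (p : ℕ) : MemLp (id : (Fin n → ℝ) → (Fin n → ℝ)) p (gam n) := by
  refine MemLp.of_eval fun i => ?_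
  have h := (memLp_id_gaussianReal' (μ := 0) (v := 1) (p : ENNReal)
    (ENNReal.natCast_ne_top p)).comp_measurePreserving
    (measurePreserving_eval (fun _ : Fin n => gaussianReal 0 1) i)
  exact h

theorem IP_mu (n d : ℕ) (p : ℕ) : MemLp (id : V n d → V n d) p (mu n d) := by
  refine MemLp.of_fst_snd ⟨?_, ?_⟩
  · exact (IP_gam n p).comp_measurePreserving
      (measurePreserving_fst (μ := gam n) (ν := gam d))
  · exact (IP_gam d p).comp_measurePreserving
      (measurePreserving_snd (μ := gam n) (ν := gam d))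

theorem IP_cont {n d : ℕ} (l : Fin d → ((Fin n → ℝ) →ₗ[ℝ] ℝ)) (ε : ℝ) (k : Fin d) :
    Continuous (Lf l ε k) := by
  have h := LinearMap.continuous_of_finiteDimensional (l k)
  unfold Lf
  fun_prop

theorem IP_bound {n d : ℕ} (l : Fin d → ((Fin n → ℝ) →ₗ[ℝ] ℝ)) (ε : ℝ) (k : Fin d) :
    ∃ C : ℝ, 0 ≤ C ∧ ∀ w : V n d, |Lf l ε k w| ≤ C * ‖w‖ := by
  refine ⟨‖LinearMap.toContinuousLinearMap (l k)‖ + |ε|, by positivity, fun w => ?_⟩
  have h1 : |l k w.1| ≤ ‖LinearMap.toContinuousLinearMap (l k)‖ * ‖w‖ := by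
    have := (LinearMap.toContinuousLinearMap (l k)).le_opNorm w.1
    rw [Real.norm_eq_abs] at this
    refine this.trans (mul_le_mul_of_nonneg_left (norm_fst_le w) (norm_nonneg _))
  have h2 : |ε * w.2 k| ≤ |ε| * ‖w‖ := by
    rw [abs_mul]
    refine mul_le_mul_of_nonneg_left ?_ (abs_nonneg _)
    exact (norm_le_pi_norm w.2 k).trans (norm_snd_le w)
  unfold Lf
  calc |l k w.1 + ε * w.2 k| ≤ |l k w.1| + |ε * w.2 k| := abs_add_le _ _
    _ ≤ _ := by rw [add_mul]; exact add_le_add h1 h2

theorem t_IP : S_IP := by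
  intro n d l ε p
  choose C hC0 hC using fun k => IP_bound l ε k
  have h1 : Integrable (fun w : V n d => (∏ k, C k ^ (p k)) * ‖w‖ ^ (∑ k, p k)) (mu n d) := by
    refine Integrable.const_mul ?_ _
    exact (IP_mu n d (∑ k, p k)).integrable_norm_pow'
  refine h1.mono' ?_ (Filter.Eventually.of_forall fun w => ?_)
  · refine Continuous.aestronglyMeasurable ?_
    refine continuous_finsetProd _ fun k _ => ?_
    exact ((IP_cont l ε k).abs).pow _
  · rw [Real.norm_eq_abs, abs_of_nonneg (Finset.prod_nonneg fun k _ => by positivity),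
      ← Finset.prod_pow_eq_pow_sum, ← Finset.prod_mul_distrib]
    refine Finset.prod_le_prod (fun k _ => by positivity) fun k _ => ?_
    rw [← mul_pow]
    exact pow_le_pow_left₀ (abs_nonneg _) (hC k w) _

end H780GP
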