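import Pool.Agent.H780R2.GP.Defs

/-!
# Gaussian product inequality: the convexity inequality for a fixed first vector
-/

set_option autoImplicit false
open MeasureTheory ProbabilityTheory

namespace H780GP

namespace KEYaux

theorem int_pow (δ : ℝ) (hδ : 0 < δ) (m : ℕ) :
    Integrable (fun a : ℝ => a ^ m * Real.exp (-(δ * a)))
      ((volume : Measure ℝ).restrict (Set.Ioi 0)) := by
  have hm : (-1 : ℝ) < (m : ℝ) := by
    have := Nat.cast_nonneg (α := ℝ) m
    linarith
  have h := integrableOn_rpow_mul_exp_neg_mul_rpow (p := 1) (s := m) (b := δ) hm one_pos hδ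
  refine (h.congr_fun (fun a _ => ?_) measurableSet_Ioi)
  simp only [Real.rpow_natCast, Real.rpow_one, neg_mul]

theorem int_wt (δ : ℝ) (hδ : 0 < δ) (p : ℕ) :
    Integrable (fun a : ℝ => wt δ p a) ((volume : Measure ℝ).restrict (Set.Ioi 0)) := by
  unfold wt
  exact (int_pow δ hδ (p - 1)).div_const _

theorem int_wt1 (δ : ℝ) (hδ : 0 < δ) (p : ℕ) (x : ℝ) :
    Integrable (fun a : ℝ => wt δ p a * (a / x)) ((volume : Measure ℝ).restrict (Set.Ioi 0)) := by
  have h := ((int_pow δ hδ (p - 1 + 1)).div_const (Real.Gamma p * x))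
  refine h.congr (Filter.Eventually.of_forall fun a => ?_)
  simp only [wt, pow_succ]
  rw [div_mul_div_comm]
  ring

theorem ae_orth (d : ℕ) : ∀ᵐ a ∂(orth d), ∀ k, 0 < a k := by
  have h : orth d = (Measure.pi fun _ : Fin d => (volume : Measure ℝ)).restrict
      (Set.univ.pi fun _ => Set.Ioi 0) := (Measure.restrict_pi_pi _ _).symm
  rw [h]
  refine (ae_restrict_mem (MeasurableSet.univ_pi fun _ => measurableSet_Ioi)).mono ?_
  intro a ha k
  exact ha k (Set.mem_univ k)

theorem wt_nonneg (δ : ℝ) (p : ℕ) {a : ℝ} (ha : 0 < a) : 0 ≤ wt δ p a := by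
  unfold wt
  have : 0 ≤ Real.Gamma (p : ℝ) := Real.Gamma_nonneg_of_nonneg (Nat.cast_nonneg p)
  positivity

end KEYaux

open KEYaux in
theorem t_KEY (hFH : S_FH) (hVN : S_VN) : S_KEY := by
  intro n d l ε δ hε hδ p hp x hx
  classical
  set W : (Fin d → ℝ) → ℝ := fun a => ∏ k, wt δ (p k) (a k) with hW
  set E : (Fin d → ℝ) → ℝ := fun a => Real.exp (-(1 / 2) * VV l ε (fun k => a k / x k)) with hE
  have hEc : Continuous E := by
    simp only [hE, VV]
    fun_prop
  have hE1 : ∀ a, ‖E a‖ ≤ 1 := by
    intro a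
    rw [Real.norm_eq_abs, abs_of_pos (Real.exp_pos _)]
    apply Real.exp_le_one_iff.mpr
    have := hVN n d l ε (fun k => a k / x k)
    linarith
  have mulE : ∀ g : (Fin d → ℝ) → ℝ, Integrable g (orth d) →
      Integrable (fun a => g a * E a) (orth d) := by
    intro g hg
    refine hg.mono (hg.aestronglyMeasurable.mul hEc.aestronglyMeasurable)
      (Filter.Eventually.of_forall fun a => ?_)
    rw [norm_mul]
    exact mul_le_of_le_one_right (norm_nonneg _) (hE1 a)
  -- the products
  have hprod : ∀ i j : Fin d, i ≠ j → ∀ c : Fin d → ℝ,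
      ∏ k, (if k = i ∨ k = j then c k else 1) = c i * c j := by
    intro i j hij c
    rw [Finset.prod_ite, Finset.prod_const_one, mul_one]
    have : Finset.univ.filter (fun k => k = i ∨ k = j) = {i, j} := by ext k; simp
    rw [this, Finset.prod_pair hij]
  have hWI : Integrable W (orth d) := Integrable.fintype_prod (fun k => int_wt δ hδ (p k))
  have hWij : ∀ i j, i ≠ j →
      Integrable (fun a => W a * (a i / x i * (a j / x j))) (orth d) := by
    intro i j hij
    have h : Integrable (fun a : Fin d → ℝ => ∏ k,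
        (fun (k : Fin d) (b : ℝ) => wt δ (p k) b * (if k = i ∨ k = j then b / x k else 1)) k (a k))
        (orth d) := by
      refine Integrable.fintype_prod (μ := fun _ : Fin d => (volume : Measure ℝ).restrict (Set.Ioi 0))
        (f := fun (k : Fin d) (b : ℝ) => wt δ (p k) b * (if k = i ∨ k = j then b / x k else 1))
        (fun k => ?_)
      by_cases hk : k = i ∨ k = j
      · simp only [if_pos hk]; exact int_wt1 δ hδ (p k) (x k)
      · simp only [if_neg hk, mul_one]; exact int_wt δ hδ (p k)
    refine h.congr (Filter.Eventually.of_forall fun a => ?_)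
    simp only [hW]
    rw [Finset.prod_mul_distrib, hprod i j hij (fun k => a k / x k)]
  -- the first term
  have t0 : (∫ h, (∏ k, fac δ (p k) 0 (x k) (Lf l ε k h)) ∂(mu n d)).re =
      ∫ a, W a * E a ∂(orth d) := by
    have := hFH n d l ε δ hε hδ p (fun _ => 0) hp x hx
    rw [this, Complex.ofReal_re]
    refine integral_congr_ae (Filter.Eventually.of_forall fun a => ?_)
    simp only [hW, hE, wt, add_zero, pow_zero, mul_one]
  have t2 : ∀ i j, i ≠ j → (p i : ℝ) * p j *
      (∫ h, (∏ k, fac δ (p k) (qq i j k) (x k) (Lf l ε k h)) ∂(mu n d)).re =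
      ∫ a, W a * (a i / x i * (a j / x j)) * E a ∂(orth d) := by
    intro i j hij
    have := hFH n d l ε δ hε hδ p (qq i j) hp x hx
    rw [this, Complex.ofReal_re, ← integral_const_mul]
    refine integral_congr_ae (Filter.Eventually.of_forall fun a => ?_)
    have e1 : ∀ k, a k ^ (p k + qq i j k - 1) * Real.exp (-(δ * a k)) /
        (Real.Gamma ((p k + qq i j k : ℕ) : ℝ) * x k ^ (qq i j k)) =
        wt δ (p k) (a k) * (if k = i ∨ k = j then a k / x k / p k else 1) := by
      intro k
      unfold qq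
      by_cases h : k = i ∨ k = j
      · simp only [if_pos h]
        obtain ⟨m, hm⟩ : ∃ m, p k = m + 1 := ⟨p k - 1, by have := hp k; omega⟩
        rw [hm]
        simp only [wt, Nat.add_sub_cancel]
        have hG : Real.Gamma ((m + 1 + 1 : ℕ) : ℝ) = ((m : ℝ) + 1) * Real.Gamma ((m + 1 : ℕ) : ℝ) := by
          have h0 : ((m + 1 : ℕ) : ℝ) ≠ 0 := by positivity
          have := Real.Gamma_add_one h0
          push_cast at this ⊢
          exact this
        have hG0 : Real.Gamma ((m + 1 : ℕ) : ℝ) ≠ 0 := by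
          apply ne_of_gt
          apply Real.Gamma_pos_of_pos
          positivity
        have hxk := hx k
        have hm0 : ((m : ℝ) + 1) ≠ 0 := by positivity
        rw [hG]
        push_cast at hG0 ⊢
        field_simp
        ring
      · simp [if_neg h, wt]
    simp only [e1, Finset.prod_mul_distrib]
    rw [hprod i j hij (fun k => a k / x k / (p k : ℝ))]
    have hpi : (p i : ℝ) ≠ 0 := by have := hp i; positivity
    have hpj : (p j : ℝ) ≠ 0 := by have := hp j; positivity
    simp only [hW, hE]
    field_simp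
  -- the sum as one integral
  set F : Fin d → Fin d → (Fin d → ℝ) → ℝ := fun i j a =>
    if i = j then 0 else GG l ε i j * (W a * (a i / x i * (a j / x j)) * E a) with hF
  have hFI : ∀ i j, Integrable (F i j) (orth d) := by
    intro i j
    simp only [hF]
    by_cases hij : i = j
    · simp only [if_pos hij]; exact integrable_zero _ _ _
    · simp only [if_neg hij]; exact (mulE _ (hWij i j hij)).const_mul _
  have t3 : ∀ i j, (if i = j then 0 else GG l ε i j * p i * p j *
      (∫ h, (∏ k, fac δ (p k) (qq i j k) (x k) (Lf l ε k h)) ∂(mu n d)).re) =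
      ∫ a, F i j a ∂(orth d) := by
    intro i j
    simp only [hF]
    by_cases hij : i = j
    · simp only [if_pos hij, integral_zero]
    · simp only [if_neg hij]
      rw [integral_const_mul, ← t2 i j hij]
      ring
  have hsumI : Integrable (fun a => ∑ i, ∑ j, F i j a) (orth d) :=
    integrable_finsetSum _ fun i _ => integrable_finsetSum _ fun j _ => hFI i j
  have t4 : ∑ i, ∑ j, (if i = j then 0 else GG l ε i j * p i * p j *
      (∫ h, (∏ k, fac δ (p k) (qq i j k) (x k) (Lf l ε k h)) ∂(mu n d)).re) =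
      ∫ a, ∑ i, ∑ j, F i j a ∂(orth d) := by
    rw [integral_finsetSum _ (fun i _ => integrable_finsetSum _ fun j _ => hFI i j)]
    refine Finset.sum_congr rfl fun i _ => ?_
    rw [integral_finsetSum _ (fun j _ => hFI i j)]
    exact Finset.sum_congr rfl fun j _ => t3 i j
  rw [t0, t4, ← integral_const_mul, ← integral_add (mulE W hWI) (hsumI.const_mul _)]
  -- the right hand side
  have hGk : ∀ k, 0 ≤ GG l ε k k := by
    intro k
    unfold GG
    exact integral_nonneg fun w => mul_self_nonneg _
  have hR : ∏ k, phi δ (p k) (GG l ε k k) (x k) =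
      ∫ a, ∏ k, (wt δ (p k) (a k) * Real.exp (-(1 / 2) * (GG l ε k k * (a k / x k) ^ 2)))
        ∂(orth d) := by
    unfold orth phi
    exact (integral_fintype_prod_eq_prod (fun (k : Fin d) (b : ℝ) =>
      wt δ (p k) b * Real.exp (-(1 / 2) * (GG l ε k k * (b / x k) ^ 2)))).symm
  have hRI : Integrable (fun a : Fin d → ℝ => ∏ k,
      (wt δ (p k) (a k) * Real.exp (-(1 / 2) * (GG l ε k k * (a k / x k) ^ 2)))) (orth d) := by
    refine Integrable.fintype_prod (f := fun (k : Fin d) (b : ℝ) =>
      wt δ (p k) b * Real.exp (-(1 / 2) * (GG l ε k k * (b / x k) ^ 2))) (fun k => ?_)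
    have hg := int_wt δ hδ (p k)
    have hc : Continuous (fun b : ℝ => Real.exp (-(1 / 2) * (GG l ε k k * (b / x k) ^ 2))) := by
      fun_prop
    refine hg.mono (hg.aestronglyMeasurable.mul hc.aestronglyMeasurable)
      (Filter.Eventually.of_forall fun a => ?_)
    rw [norm_mul]
    refine mul_le_of_le_one_right (norm_nonneg _) ?_
    rw [Real.norm_eq_abs, abs_of_pos (Real.exp_pos _)]
    apply Real.exp_le_one_iff.mpr
    have := mul_nonneg (hGk k) (sq_nonneg (a / x k))
    linarith
  rw [hR]
  refine integral_mono_ae ((mulE W hWI).add (hsumI.const_mul _)) hRI ?_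
  filter_upwards [ae_orth d] with a ha
  have hW0 : 0 ≤ W a := Finset.prod_nonneg fun k _ => wt_nonneg δ (p k) (ha k)
  set S : ℝ := ∑ i, ∑ j, (if i = j then 0 else GG l ε i j * (a i / x i * (a j / x j))) with hS
  set D : ℝ := ∑ k, GG l ε k k * (a k / x k) ^ 2 with hD
  have hV : VV l ε (fun k => a k / x k) = D + S := by
    unfold VV
    rw [hD, hS, ← Finset.sum_add_distrib]
    refine Finset.sum_congr rfl fun i _ => ?_
    have h1 : GG l ε i i * (a i / x i) ^ 2 =
        ∑ j, (if i = j then GG l ε i j * (a i / x i * (a j / x j)) else 0) := by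
      rw [Finset.sum_ite_eq Finset.univ i]
      simp only [Finset.mem_univ, if_true]
      ring
    rw [h1, ← Finset.sum_add_distrib]
    refine Finset.sum_congr rfl fun j _ => ?_
    by_cases hij : i = j
    · simp only [if_pos hij, add_zero]; ring
    · simp only [if_neg hij, zero_add]; ring
  have hsum : ∑ i, ∑ j, F i j a = W a * E a * S := by
    rw [hS, Finset.mul_sum]
    refine Finset.sum_congr rfl fun i _ => ?_
    rw [Finset.mul_sum]
    refine Finset.sum_congr rfl fun j _ => ?_
    simp only [hF]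
    by_cases hij : i = j
    · simp only [if_pos hij, mul_zero]
    · simp only [if_neg hij]; ring
  have hrhs : ∏ k, (wt δ (p k) (a k) * Real.exp (-(1 / 2) * (GG l ε k k * (a k / x k) ^ 2))) =
      W a * Real.exp (-(1 / 2) * D) := by
    rw [Finset.prod_mul_distrib, ← Real.exp_sum, ← Finset.mul_sum]
  show W a * E a + 1 / 2 * ∑ i, ∑ j, F i j a ≤ _
  rw [hsum, hrhs]
  have hEa : E a = Real.exp (-(1 / 2) * D) * Real.exp (-(1 / 2 * S)) := by
    simp only [hE]
    rw [hV, ← Real.exp_add]
    congr 1; ring
  have hexp : Real.exp (-(1 / 2 * S)) * (1 + 1 / 2 * S) ≤ 1 := by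
    have h1 := Real.add_one_le_exp (1 / 2 * S)
    have h2 : Real.exp (-(1 / 2 * S)) * Real.exp (1 / 2 * S) = 1 := by
      rw [← Real.exp_add]; simp
    have h3 := Real.exp_pos (-(1 / 2 * S))
    nlinarith
  have h4 : 0 ≤ W a * Real.exp (-(1 / 2) * D) := mul_nonneg hW0 (Real.exp_pos _).le
  calc W a * E a + 1 / 2 * (W a * E a * S)
      = W a * Real.exp (-(1 / 2) * D) * (Real.exp (-(1 / 2 * S)) * (1 + 1 / 2 * S)) := by
        rw [hEa]; ring
    _ ≤ W a * Real.exp (-(1 / 2) * D) := mul_le_of_le_one_right h4 hexp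

end H780GP
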