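import Pool.Agent.H780R2.GP.Defs

set_option autoImplicit false
open MeasureTheory ProbabilityTheory

namespace H780GP

theorem lim_gauss (n : ℕ) : IsGaussian (gam n) := by
  have h1 : iIndepFun (fun (i : Fin n) (ω : Fin n → ℝ) => ω i) (gam n) :=
    iIndepFun_pi (X := fun _ x => x) (fun i => aemeasurable_id)
  have h2 : ∀ i, HasGaussianLaw (fun ω : Fin n → ℝ => ω i) (gam n) := fun i => ⟨by
    have : (gam n).map (fun ω => ω i) = gaussianReal 0 1 :=
      (measurePreserving_eval _ i).map_eq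
    rw [this]
    infer_instance⟩
  have h3 := iIndepFun.hasGaussianLaw h2 h1
  have h4 := h3.isGaussian_map
  have h5 : (gam n).map (fun (ω : Fin n → ℝ) (i : Fin n) => ω i) = gam n := Measure.map_id
  rwa [h5] at h4

theorem lim_gauss2 (n d : ℕ) : IsGaussian (mu n d) := by
  have := lim_gauss n
  have := lim_gauss d
  unfold mu
  infer_instance

theorem lim_meas {n d : ℕ} (l : Fin d → ((Fin n → ℝ) →ₗ[ℝ] ℝ)) (ε : ℝ) (k : Fin d) :
    Continuous (Lf l ε k) := by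
  unfold Lf
  have h : Continuous (l k) := (l k).continuous_of_finiteDimensional
  fun_prop

theorem lim_bd {n d : ℕ} (l : Fin d → ((Fin n → ℝ) →ₗ[ℝ] ℝ)) (k : Fin d) :
    ∃ C : ℝ, 0 ≤ C ∧ ∀ ε : ℝ, 0 < ε → ε < 1 → ∀ w : V n d, |Lf l ε k w| ≤ C * ‖w‖ := by
  let L : (Fin n → ℝ) →L[ℝ] ℝ := LinearMap.toContinuousLinearMap (l k)
  refine ⟨‖L‖ + 1, by positivity, ?_⟩
  intro ε h0 h1 w
  have e1 : |l k w.1| ≤ ‖L‖ * ‖w‖ := by
    have h2 : ‖L w.1‖ ≤ ‖L‖ * ‖w.1‖ := L.le_opNorm w.1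
    have h3 : ‖w.1‖ ≤ ‖w‖ := norm_fst_le w
    have h4 : ‖L w.1‖ = |l k w.1| := rfl
    rw [← h4]
    exact h2.trans (mul_le_mul_of_nonneg_left h3 (norm_nonneg _))
  have e2 : |w.2 k| ≤ ‖w‖ := by
    have h3 : ‖w.2‖ ≤ ‖w‖ := norm_snd_le w
    exact (norm_le_pi_norm w.2 k).trans h3
  calc |Lf l ε k w| ≤ |l k w.1| + |ε * w.2 k| := abs_add_le _ _
    _ = |l k w.1| + ε * |w.2 k| := by rw [abs_mul, abs_of_pos h0]
    _ ≤ ‖L‖ * ‖w‖ + 1 * ‖w‖ := by
      have : ε * |w.2 k| ≤ 1 * ‖w‖ :=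
        mul_le_mul h1.le e2 (abs_nonneg _) zero_le_one
      linarith
    _ = (‖L‖ + 1) * ‖w‖ := by ring

theorem t_LIM : S_LIM := by
  intro n d l p
  have hg := lim_gauss2 n d
  have hg1 := lim_gauss n
  have hg2 := lim_gauss d
  choose C hC0 hC using lim_bd l
  have hfin : ∫ g, ∏ k, |l k g| ^ (p k) ∂(gam n)
      = ∫ w : V n d, ∏ k, |l k w.1| ^ (p k) ∂(mu n d) := by
    have := integral_fun_fst (μ := gam n) (ν := gam d) (fun g => ∏ k, |l k g| ^ (p k))
    unfold mu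
    rw [this]
    simp
  rw [hfin]
  refine tendsto_integral_filter_of_dominated_convergence
    (fun w => ∏ k, (C k) ^ (p k) * ‖w‖ ^ (p k)) ?_ ?_ ?_ ?_
  · refine Filter.Eventually.of_forall (fun ε => ?_)
    apply Continuous.aestronglyMeasurable
    refine continuous_finset_prod _ (fun k _ => ?_)
    exact ((lim_meas l ε k).abs).pow _
  · have h01 : Set.Ioo (0 : ℝ) 1 ∈ nhdsWithin (0 : ℝ) (Set.Ioi 0) :=
      Ioo_mem_nhdsGT one_pos
    filter_upwards [h01] with ε hε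
    refine Filter.Eventually.of_forall (fun w => ?_)
    rw [Real.norm_eq_abs, Finset.abs_prod]
    refine Finset.prod_le_prod (fun k _ => abs_nonneg _) (fun k _ => ?_)
    rw [abs_pow, abs_abs, ← mul_pow]
    exact pow_le_pow_left₀ (abs_nonneg _) (hC k ε hε.1 hε.2 w) _
  · have h1 : (fun w : V n d => ∏ k, (C k) ^ (p k) * ‖w‖ ^ (p k))
        = fun w => (∏ k, (C k) ^ (p k)) * ‖w‖ ^ (∑ k, p k) := by
      funext w
      rw [Finset.prod_mul_distrib, Finset.prod_pow_eq_pow_sum]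
    rw [h1]
    refine Integrable.const_mul ?_ _
    have h2 : MemLp (id : V n d → V n d) ((∑ k, p k : ℕ) : ENNReal) (mu n d) :=
      IsGaussian.memLp_id (mu n d) _ (ENNReal.natCast_ne_top _)
    exact h2.integrable_norm_pow'
  · refine Filter.Eventually.of_forall (fun w => ?_)
    have hc : Continuous (fun ε : ℝ => ∏ k, |Lf l ε k w| ^ (p k)) := by
      unfold Lf
      fun_prop
    have := hc.tendsto 0
    have h0 : (∏ k, |Lf l 0 k w| ^ (p k)) = ∏ k, |l k w.1| ^ (p k) := by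
      simp [Lf]
    rw [h0] at this
    exact this.mono_left nhdsWithin_le_nhds

end H780GP
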