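import Pool.Agent.H780R2.GP.Defs

set_option autoImplicit false
open MeasureTheory ProbabilityTheory

namespace H780GP

namespace P_M1

theorem prob_gam (n : ℕ) : IsProbabilityMeasure (gam n) := by
  unfold gam; infer_instance

theorem prob_mu (n d : ℕ) : IsProbabilityMeasure (mu n d) := by
  haveI := prob_gam n
  haveI := prob_gam d
  unfold mu; infer_instance

theorem cont_Lf {n d : ℕ} (l : Fin d → ((Fin n → ℝ) →ₗ[ℝ] ℝ)) (ε : ℝ) (k : Fin d) :
    Continuous (fun w : V n d => Lf l ε k w) := by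
  unfold Lf
  have h1 : Continuous (l k) := LinearMap.continuous_of_finiteDimensional (l k)
  have h2 : Continuous (fun w : V n d => l k w.1) := h1.comp continuous_fst
  have h3 : Continuous (fun w : V n d => w.2 k) := (continuous_apply k).comp continuous_snd
  exact h2.add (continuous_const.mul h3)

end P_M1

open P_M1 in
theorem t_M1 (hKEY : S_KEY) (hAB : S_AB) (hI0 : S_I0) (hI2 : S_I2) (hNZ : S_NZ) (hPB : S_PB)
    (hGP : S_GP) : S_M1 := by
  intro n d l ε δ hε hδ hδ1 p hp
  haveI := prob_mu n d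
  let A : (Fin d → ℕ) → V n d → ℂ := fun q w =>
    ∫ h, (∏ k, fac δ (p k) (q k) (Lf l ε k w) (Lf l ε k h)) ∂(mu n d)
  have hA : ∀ q, Integrable (FF l ε δ p q) (PP n d) → Integrable (fun w => (A q w).re) (mu n d) ∧
      ∫ w, (A q w).re ∂(mu n d) = (∏ k, (if q k = 0 then (((1 + δ : ℝ) : ℂ) ^ (p k))⁻¹ else 0) : ℂ).re := by
    intro q hq
    have h1 : Integrable (A q) (mu n d) := by
      have h2 : Integrable (FF l ε δ p q) ((mu n d).prod (mu n d)) := hq
      exact h2.integral_prod_left
    have h3 : ∫ Z, FF l ε δ p q Z ∂(PP n d) = ∫ w, A q w ∂(mu n d) := by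
      have h2 : Integrable (FF l ε δ p q) ((mu n d).prod (mu n d)) := hq
      unfold PP
      rw [integral_prod _ h2]
      rfl
    refine ⟨h1.re, ?_⟩
    rw [← hAB n d l ε δ hε hδ hδ1 p q hq, h3]
    exact integral_re h1
  obtain ⟨h0i, h0v⟩ := hA (fun _ => 0) (hI0 n d l ε δ hε hδ p)
  have h0v' : ∫ w, (A (fun _ => 0) w).re ∂(mu n d) = ∏ k, ((1 + δ) ^ (p k))⁻¹ := by
    rw [h0v]
    simp only [if_true]
    have : (∏ k, (((1 + δ : ℝ) : ℂ) ^ (p k))⁻¹ : ℂ) = ((∏ k, ((1 + δ) ^ (p k))⁻¹ : ℝ) : ℂ) := by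
      push_cast
      rfl
    rw [this, Complex.ofReal_re]
  have h2 : ∀ i j : Fin d, i ≠ j → Integrable (fun w => (A (qq i j) w).re) (mu n d) ∧
      ∫ w, (A (qq i j) w).re ∂(mu n d) = 0 := by
    intro i j hij
    obtain ⟨h3, h4⟩ := hA (qq i j) (hI2 n d l ε δ hε hδ p hp i j hij)
    refine ⟨h3, ?_⟩
    rw [h4, Finset.prod_eq_zero (Finset.mem_univ i)]
    · simp
    · rw [if_neg]
      simp [qq]
  -- the left hand side
  let c : Fin d → Fin d → ℝ := fun i j => GG l ε i j * p i * p j
  let T : Fin d → Fin d → V n d → ℝ := fun i j w =>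
    if i = j then 0 else c i j * (A (qq i j) w).re
  have hT : ∀ i j, Integrable (T i j) (mu n d) ∧ ∫ w, T i j w ∂(mu n d) = 0 := by
    intro i j
    by_cases hij : i = j
    · have : T i j = fun _ => 0 := by
        funext w
        simp only [T]
        rw [if_pos hij]
      rw [this]
      exact ⟨integrable_zero _ _ _, integral_zero _ _⟩
    · have : T i j = fun w => c i j * (A (qq i j) w).re := by
        funext w
        simp only [T]
        rw [if_neg hij]
      rw [this]
      refine ⟨(h2 i j hij).1.const_mul _, ?_⟩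
      rw [integral_const_mul, (h2 i j hij).2, mul_zero]
  have hS : Integrable (fun w => ∑ i, ∑ j, T i j w) (mu n d) :=
    integrable_finsetSum _ fun i _ => integrable_finsetSum _ fun j _ => (hT i j).1
  have hSv : ∫ w, ∑ i, ∑ j, T i j w ∂(mu n d) = 0 := by
    rw [integral_finsetSum _ fun i _ => integrable_finsetSum _ fun j _ => (hT i j).1]
    apply Finset.sum_eq_zero
    intro i _
    rw [integral_finsetSum _ fun j _ => (hT i j).1]
    exact Finset.sum_eq_zero fun j _ => (hT i j).2
  have hL : Integrable (fun w => (A (fun _ => 0) w).re + (1 / 2) * ∑ i, ∑ j, T i j w) (mu n d) :=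
    h0i.add (hS.const_mul _)
  have hLv : ∫ w, ((A (fun _ => 0) w).re + (1 / 2) * ∑ i, ∑ j, T i j w) ∂(mu n d) =
      ∏ k, ((1 + δ) ^ (p k))⁻¹ := by
    rw [integral_add h0i (hS.const_mul _), integral_const_mul, hSv, h0v']
    ring
  -- the right hand side
  have hR : Integrable (fun w => ∏ k, phi δ (p k) (GG l ε k k) (Lf l ε k w)) (mu n d) := by
    have hm : Measurable (fun w : V n d => ∏ k, phi δ (p k) (GG l ε k k) (Lf l ε k w)) := by
      apply Finset.measurable_fun_prod
      intro k _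
      exact (hPB δ (p k) (GG l ε k k) hδ (hp k) (hGP n d l ε hε k)).1.comp (cont_Lf l ε k).measurable
    refine Integrable.of_bound hm.aestronglyMeasurable (∏ k, (δ ^ (p k))⁻¹) ?_
    refine Filter.Eventually.of_forall fun w => ?_
    rw [Real.norm_eq_abs, Finset.abs_prod]
    apply Finset.prod_le_prod
    · intro k _
      exact abs_nonneg _
    · intro k _
      have h := (hPB δ (p k) (GG l ε k k) hδ (hp k) (hGP n d l ε hε k)).2 (Lf l ε k w)
      rw [abs_of_nonneg h.1]
      exact h.2
  rw [← hLv]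
  apply integral_mono_ae hL hR
  filter_upwards [hNZ n d l ε hε] with w hw
  have h := hKEY n d l ε δ hε hδ p hp (fun k => Lf l ε k w) hw
  exact h

end H780GP
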