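/-
helper264: task MOM of the Gaussian product inequality (MP_808c93_pr).
-/
import Pool.Agent.H780R2.GP.Defs

set_option autoImplicit false
open MeasureTheory ProbabilityTheory

namespace H780GP
namespace MOM264

lemma neg_gam (n : ℕ) : MeasurePreserving (fun x : Fin n → ℝ => -x) (gam n) (gam n) := by
  have h1 : MeasurePreserving (fun x : ℝ => -x) (gaussianReal 0 1) (gaussianReal 0 1) :=
    ⟨measurable_neg, by rw [gaussianReal_map_neg]; simp⟩
  exact measurePreserving_pi (fun _ : Fin n => gaussianReal 0 1) (fun _ : Fin n => gaussianReal 0 1)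
    (f := fun _ x => -x) (fun _ => h1)

instance isG_gam (n : ℕ) : IsGaussian (gam n) := by
  have h : gam n = (stdGaussian (EuclideanSpace ℝ (Fin n))).map
      (EuclideanSpace.equiv (Fin n) ℝ) := by
    rw [← map_pi_eq_stdGaussian, Measure.map_map (by fun_prop) (by fun_prop)]
    have : (⇑(EuclideanSpace.equiv (Fin n) ℝ) ∘ (WithLp.toLp 2) : (Fin n → ℝ) → (Fin n → ℝ)) = id := by
      ext x i; simp
    rw [this, Measure.map_id]
    rfl
  rw [h]
  infer_instance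

instance isG_mu (n d : ℕ) : IsGaussian (mu n d) := by
  unfold mu
  infer_instance

lemma neg_mu (n d : ℕ) : MeasurePreserving (fun w : V n d => -w) (mu n d) (mu n d) :=
  (neg_gam n).prod (neg_gam d)

/-- `Lf` as a continuous linear functional. -/
noncomputable def LL {n d : ℕ} (l : Fin d → ((Fin n → ℝ) →ₗ[ℝ] ℝ)) (ε : ℝ) (k : Fin d) :
    StrongDual ℝ (V n d) :=
  (LinearMap.toContinuousLinearMap (l k)).comp (ContinuousLinearMap.fst ℝ _ _) +
    ε • (ContinuousLinearMap.proj k).comp (ContinuousLinearMap.snd ℝ (Fin n → ℝ) (Fin d → ℝ))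

lemma LL_apply {n d : ℕ} (l : Fin d → ((Fin n → ℝ) →ₗ[ℝ] ℝ)) (ε : ℝ) (k : Fin d) (w : V n d) :
    LL l ε k w = Lf l ε k w := by
  simp [LL, Lf]

lemma mean_zero {n d : ℕ} (L : StrongDual ℝ (V n d)) : ∫ w, L w ∂(mu n d) = 0 := by
  have h := (neg_mu n d).integral_comp (MeasurableEquiv.neg (V n d)).measurableEmbedding
    (fun w => L w)
  simp only [map_neg, integral_neg] at h
  linarith

lemma law {n d : ℕ} (l : Fin d → ((Fin n → ℝ) →ₗ[ℝ] ℝ)) (ε : ℝ) (k : Fin d) :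
    (mu n d).map (LL l ε k) = gaussianReal 0 (GG l ε k k).toNNReal := by
  rw [IsGaussian.map_eq_gaussianReal (LL l ε k), mean_zero]
  congr 2
  rw [variance_of_integral_eq_zero (by fun_prop) (mean_zero _)]
  unfold GG
  congr 1
  ext w
  simp only [LL_apply]
  ring

lemma rho_eq {p : ℕ} (hp : 1 ≤ p) {G : ℝ} (hG : 0 < G) :
    rho p G = (1 / Real.Gamma p) * ((G / 2) ^ (-(p : ℝ) / 2) * (1 / 2) * Real.Gamma (p / 2)) := by
  have hp' : (1 : ℝ) ≤ p := by exact_mod_cast hp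
  have h := integral_rpow_mul_exp_neg_mul_rpow (p := 2) (q := (p : ℝ) - 1) (b := G / 2)
    two_pos (by linarith) (by positivity)
  rw [show (p : ℝ) - 1 + 1 = p by ring] at h
  rw [← h]
  unfold rho
  rw [← integral_const_mul]
  refine setIntegral_congr_fun measurableSet_Ioi (fun b hb => ?_)
  have hb' : (0 : ℝ) < b := hb
  have e1 : b ^ ((p : ℝ) - 1) = b ^ (p - 1) := by
    rw [← Real.rpow_natCast b (p - 1), Nat.cast_sub hp, Nat.cast_one]
  have e2 : b ^ (2 : ℝ) = b ^ 2 := Real.rpow_two b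
  simp only [e1, e2]
  rw [show -(1 / 2) * (G * b ^ 2) = -(G / 2) * b ^ 2 by ring]
  ring

lemma mom_eq (p : ℕ) {G : ℝ} (hG : 0 < G) :
    ∫ x, |x| ^ p ∂(gaussianReal 0 G.toNNReal)
      = (Real.sqrt (2 * Real.pi * G))⁻¹ * (2 * (((2 * G)⁻¹) ^ (-((p : ℝ) + 1) / 2) * (1 / 2)
        * Real.Gamma (((p : ℝ) + 1) / 2))) := by
  have hv : G.toNNReal ≠ 0 := by
    simpa using hG
  have hc : ((G.toNNReal : NNReal) : ℝ) = G := Real.coe_toNNReal G hG.le
  rw [integral_gaussianReal_eq_integral_smul hv]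
  have h := integral_rpow_mul_exp_neg_mul_rpow (p := 2) (q := (p : ℝ)) (b := (2 * G)⁻¹)
    two_pos (by have : (0 : ℝ) ≤ p := Nat.cast_nonneg p; linarith) (by positivity)
  rw [← h, ← integral_comp_abs (f := fun x => x ^ (p : ℝ) * Real.exp (-(2 * G)⁻¹ * x ^ (2 : ℝ))),
    ← integral_const_mul]
  congr 1
  ext x
  simp only [gaussianPDFReal, hc, smul_eq_mul, sub_zero, Real.rpow_natCast, Real.rpow_two, sq_abs]
  rw [show -x ^ 2 / (2 * G) = -(2 * G)⁻¹ * x ^ 2 by field_simp]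
  ring

end MOM264

open MOM264 in
theorem t_MOM (hGP : S_GP) : S_MOM := by
  intro n d l ε hε p hp k
  have hG := hGP n d l ε hε k
  set G := GG l ε k k with hGdef
  have h1 : ∫ w, |Lf l ε k w| ^ p ∂(mu n d) = ∫ x, |x| ^ p ∂(gaussianReal 0 G.toNNReal) := by
    rw [← law l ε k, integral_map (by fun_prop) (by fun_prop)]
    simp only [LL_apply]
  rw [h1, rho_eq hp hG, mom_eq p hG]
  have hp' : (1 : ℝ) ≤ p := by exact_mod_cast hp
  have hdup := Real.Gamma_mul_Gamma_add_half ((p : ℝ) / 2)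
  have hΓ : 0 < Real.Gamma p := Real.Gamma_pos_of_pos (by linarith)
  have e0 : (p : ℝ) / 2 + 1 / 2 = ((p : ℝ) + 1) / 2 := by ring
  have e00 : 2 * ((p : ℝ) / 2) = p := by ring
  rw [e0, e00] at hdup
  have h2G : (0 : ℝ) < 2 * G := by positivity
  have hG2 : (0 : ℝ) < G / 2 := by positivity
  have e1 : ((2 * G)⁻¹) ^ (-((p : ℝ) + 1) / 2) = (2 * G) ^ ((p : ℝ) / 2) * Real.sqrt (2 * G) := by
    rw [Real.inv_rpow h2G.le, ← Real.rpow_neg h2G.le, Real.sqrt_eq_rpow, ← Real.rpow_add h2G]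
    congr 1; ring
  have e2 : (G / 2) ^ (-(p : ℝ) / 2) * (2 * G) ^ ((p : ℝ) / 2) = 2 ^ (p : ℝ) := by
    rw [neg_div, Real.rpow_neg hG2.le, ← Real.inv_rpow hG2.le, ← Real.mul_rpow (by positivity) h2G.le]
    rw [show (G / 2)⁻¹ * (2 * G) = 2 ^ (2 : ℝ) by rw [Real.rpow_two]; field_simp, ← Real.rpow_mul (by norm_num)]
    congr 1
    try ring
  have e3 : Real.sqrt (2 * Real.pi * G) = Real.sqrt (2 * G) * Real.sqrt Real.pi := by
    rw [← Real.sqrt_mul h2G.le]; congr 1; ring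
  rw [e1, e3]
  have hs1 : 0 < Real.sqrt (2 * G) := Real.sqrt_pos.mpr h2G
  have hs2 : 0 < Real.sqrt Real.pi := Real.sqrt_pos.mpr Real.pi_pos
  have key : (1 / Real.Gamma p) * ((G / 2) ^ (-(p : ℝ) / 2) * (1 / 2) * Real.Gamma (p / 2)) *
      ((Real.sqrt (2 * G) * Real.sqrt Real.pi)⁻¹ * (2 * ((2 * G) ^ ((p : ℝ) / 2) * Real.sqrt (2 * G)
        * (1 / 2) * Real.Gamma (((p : ℝ) + 1) / 2))))
      = (1 / 2) * ((G / 2) ^ (-(p : ℝ) / 2) * (2 * G) ^ ((p : ℝ) / 2)) *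
        (Real.Gamma (p / 2) * Real.Gamma (((p : ℝ) + 1) / 2)) / (Real.Gamma p * Real.sqrt Real.pi) := by
    field_simp
  rw [key, e2, hdup]
  have h2p : (2 : ℝ) ^ (p : ℝ) * 2 ^ (1 - (p : ℝ)) = 2 := by
    rw [← Real.rpow_add (by norm_num)]; norm_num
  have : 1 / 2 * (2 : ℝ) ^ (p : ℝ) * (Real.Gamma p * 2 ^ (1 - (p : ℝ)) * Real.sqrt Real.pi)
      = (1 / 2) * ((2 : ℝ) ^ (p : ℝ) * 2 ^ (1 - (p : ℝ))) * (Real.Gamma p * Real.sqrt Real.pi) := by ring
  rw [this, h2p]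
  field_simp

end H780GP
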