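import Pool.Agent.H780R2.GP.Defs

set_option autoImplicit false
open MeasureTheory ProbabilityTheory

namespace H780GP

theorem MV_avg (f : ℂ → ℂ) (hf : DiffContOnCl ℂ f (Metric.ball 0 1)) :
    ∫ t in (0 : ℝ)..(2 * Real.pi), f (Complex.exp (Complex.I * t)) = (2 * Real.pi) • f 0 := by
  have h1 : Real.circleAverage f 0 1 = f 0 := DiffContOnCl.circleAverage (by simpa using hf)
  rw [Real.circleAverage_def] at h1
  have h2 : (∫ t in (0 : ℝ)..(2 * Real.pi), f (Complex.exp (Complex.I * t))) =
      ∫ t in (0 : ℝ)..(2 * Real.pi), f (circleMap 0 1 t) := by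
    congr 1
    funext t
    simp [circleMap, mul_comm]
  rw [h2, ← h1, smul_smul, mul_inv_cancel₀ (by positivity), one_smul]

theorem t_MV (hROT : S_ROT) : S_MV := by
  intro n d F H hFm hFi hH
  have hc : Continuous (fun p : ℝ × (V n d × V n d) => rot p.1 p.2) := by
    unfold rot
    fun_prop
  have hpi : 0 < 2 * Real.pi := by positivity
  -- the double integral
  set ν : Measure ℝ := (volume : Measure ℝ).restrict (Set.Ioc 0 (2 * Real.pi)) with hν
  have : IsProbabilityMeasure (PP n d) := by
    unfold PP mu gam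
    infer_instance
  have hrot : ∀ t : ℝ, ∫ Z, F (rot t Z) ∂(PP n d) = ∫ Z, F Z ∂(PP n d) := by
    intro t
    have h1 := (hROT n d t).map_eq
    conv_rhs => rw [← h1]
    rw [integral_map (hROT n d t).aemeasurable hFm.aestronglyMeasurable]
  have hrotn : ∀ t : ℝ, ∫ Z, ‖F (rot t Z)‖ ∂(PP n d) = ∫ Z, ‖F Z‖ ∂(PP n d) := by
    intro t
    have h1 := (hROT n d t).map_eq
    conv_rhs => rw [← h1]
    rw [integral_map (hROT n d t).aemeasurable hFm.norm.aestronglyMeasurable]
  have hint : Integrable (fun p : ℝ × (V n d × V n d) => F (rot p.1 p.2)) (ν.prod (PP n d)) := by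
    have hae : AEStronglyMeasurable (fun p : ℝ × (V n d × V n d) => F (rot p.1 p.2))
        (ν.prod (PP n d)) := (hFm.comp hc.measurable).aestronglyMeasurable
    rw [integrable_prod_iff hae]
    constructor
    · refine Filter.Eventually.of_forall fun t => ?_
      exact (hROT n d t).integrable_comp_of_integrable hFi
    · simp only [hrotn]
      exact integrable_const _
  have hswap := integral_integral_swap (f := fun (t : ℝ) (Z : V n d × V n d) => F (rot t Z)) hint
  simp only [hrot] at hswap
  have hin : ∀ᵐ Z ∂(PP n d), ∫ t, F (rot t Z) ∂ν = (2 * Real.pi) • H Z 0 := by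
    filter_upwards [hH] with Z hZ
    rw [← MV_avg (H Z) hZ.1, intervalIntegral.integral_of_le hpi.le]
    congr 1
    funext t
    exact hZ.2 t
  rw [integral_congr_ae hin, integral_smul] at hswap
  have hconst : ∫ _t : ℝ, (∫ Z, F Z ∂(PP n d)) ∂ν = (2 * Real.pi) • ∫ Z, F Z ∂(PP n d) := by
    rw [integral_const]
    congr 1
    simp [hν, measureReal_def, Real.pi_nonneg]
  rw [hconst] at hswap
  exact smul_right_injective _ hpi.ne' hswap

end H780GP
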