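import Pool.Agent.H780R2.GP.Defs

set_option autoImplicit false
open MeasureTheory ProbabilityTheory

namespace H780GP

namespace NZ

theorem cont_Lf {n d : ℕ} (l : Fin d → ((Fin n → ℝ) →ₗ[ℝ] ℝ)) (ε : ℝ) (k : Fin d) :
    Continuous (Lf l ε k) := by
  have h : Continuous (l k) := (l k).continuous_of_finiteDimensional
  unfold Lf
  fun_prop

end NZ

theorem t_NZ : S_NZ := by
  intro n d l ε hε
  rw [ae_all_iff]
  intro k
  haveI : ∀ i : Fin n, IsProbabilityMeasure ((fun _ : Fin n => gaussianReal 0 1) i) :=
    fun _ => inferInstance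
  haveI : ∀ i : Fin d, IsProbabilityMeasure ((fun _ : Fin d => gaussianReal 0 1) i) :=
    fun _ => inferInstance
  haveI h1 : IsProbabilityMeasure (gam n) := by unfold gam; infer_instance
  haveI h2 : IsProbabilityMeasure (gam d) := by unfold gam; infer_instance
  have hcl : MeasurableSet {w : V n d | ¬ Lf l ε k w ≠ 0} := by
    simp only [not_not]
    exact (isClosed_eq (NZ.cont_Lf l ε k) continuous_const).measurableSet
  rw [ae_iff]
  unfold mu
  rw [Measure.measure_prod_null hcl]
  refine Filter.Eventually.of_forall fun x => ?_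
  have hs : (Prod.mk x ⁻¹' {w : V n d | ¬ Lf l ε k w ≠ 0}) =
      Function.eval k ⁻¹' ({-(l k x) / ε} : Set ℝ) := by
    ext y
    simp only [Set.mem_preimage, Set.mem_singleton_iff, not_not, Function.eval, Lf]
    constructor
    · intro h
      have h' : l k x + ε * y k = 0 := h
      rw [eq_div_iff hε.ne']
      linarith
    · intro h
      rw [eq_div_iff hε.ne'] at h
      change l k x + ε * y k = 0
      linarith
  change gam d (Prod.mk x ⁻¹' {w : V n d | ¬ Lf l ε k w ≠ 0}) = 0
  rw [hs]
  unfold gam
  rw [(measurePreserving_eval (fun _ : Fin d => gaussianReal 0 1) k).measure_preimage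
    (measurableSet_singleton _).nullMeasurableSet]
  haveI : NullSingletonClass (gaussianReal 0 1) := nullSingletonClass_gaussianReal one_ne_zero
  exact measure_singleton _

end H780GP
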