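import Pool.Agent.H780R2.GP.Defs

set_option autoImplicit false
open MeasureTheory ProbabilityTheory

namespace H780GP

theorem PB_wt_integral (δ : ℝ) (p : ℕ) (hδ : 0 < δ) (hp : 1 ≤ p) :
    ∫ a in Set.Ioi (0 : ℝ), wt δ p a = (δ ^ p)⁻¹ := by
  have hp' : (0 : ℝ) < p := by exact_mod_cast hp
  have h := Real.integral_rpow_mul_exp_neg_mul_Ioi (a := (p : ℝ)) (r := δ) hp' hδ
  have h2 : ∫ a in Set.Ioi (0 : ℝ), wt δ p a =
      ∫ t in Set.Ioi (0 : ℝ), (t ^ ((p : ℝ) - 1) * Real.exp (-(δ * t))) / Real.Gamma p := by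
    apply setIntegral_congr_fun measurableSet_Ioi
    intro a ha
    simp only [wt]
    congr 2
    rw [← Real.rpow_natCast, Nat.cast_sub hp]
    simp
  rw [h2, integral_div, h]
  have hG : Real.Gamma p ≠ 0 := (Real.Gamma_pos_of_pos hp').ne'
  rw [mul_div_assoc, div_self hG, mul_one, one_div, Real.inv_rpow hδ.le, Real.rpow_natCast]

theorem t_PB : S_PB := by
  intro δ p G hδ hp hG
  have hp' : (0 : ℝ) < p := by exact_mod_cast hp
  have hGam : 0 < Real.Gamma p := Real.Gamma_pos_of_pos hp'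
  have hint := PB_wt_integral δ p hδ hp
  have hI : IntegrableOn (fun a => wt δ p a) (Set.Ioi 0) := by
    by_contra h
    rw [integral_undef h] at hint
    exact (inv_ne_zero (pow_pos hδ p).ne') hint.symm
  have hwt : ∀ a ∈ Set.Ioi (0 : ℝ), 0 ≤ wt δ p a := by
    intro a ha
    have ha' : (0 : ℝ) < a := ha
    unfold wt
    positivity
  refine ⟨?_, ?_⟩
  · have hm : Measurable (Function.uncurry fun (x a : ℝ) =>
        wt δ p a * Real.exp (-(1 / 2) * (G * (a / x) ^ 2))) := by
      unfold wt Function.uncurry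
      fun_prop
    exact (hm.stronglyMeasurable.integral_prod_right (ν := volume.restrict (Set.Ioi 0))).measurable
  · intro x
    have h1 : ∀ a ∈ Set.Ioi (0 : ℝ),
        0 ≤ wt δ p a * Real.exp (-(1 / 2) * (G * (a / x) ^ 2)) :=
      fun a ha => mul_nonneg (hwt a ha) (Real.exp_pos _).le
    refine ⟨setIntegral_nonneg measurableSet_Ioi h1, ?_⟩
    rw [← hint]
    unfold phi
    refine integral_mono_of_nonneg ?_ hI ?_
    · exact (ae_restrict_iff' measurableSet_Ioi).mpr (Filter.Eventually.of_forall h1)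
    · refine (ae_restrict_iff' measurableSet_Ioi).mpr (Filter.Eventually.of_forall ?_)
      intro a ha
      have h2 : Real.exp (-(1 / 2) * (G * (a / x) ^ 2)) ≤ 1 := by
        rw [Real.exp_le_one_iff]
        have : 0 ≤ G * (a / x) ^ 2 := by positivity
        linarith
      calc wt δ p a * Real.exp (-(1 / 2) * (G * (a / x) ^ 2)) ≤ wt δ p a * 1 :=
            mul_le_mul_of_nonneg_left h2 (hwt a ha)
        _ = wt δ p a := mul_one _

end H780GP
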