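import Pool.Agent.H780R2.GP.Defs

/-!
# PHI: bounds for `phi`
-/

set_option autoImplicit false

open MeasureTheory ProbabilityTheory

namespace H780GP

theorem PHI_int (p : ℕ) (c : ℝ) (hc : 0 < c) :
    IntegrableOn (fun a : ℝ => a ^ p * Real.exp (-c * a ^ 2)) (Set.Ioi 0) := by
  have h := integrableOn_rpow_mul_exp_neg_mul_sq (b := c) hc (s := (p : ℝ))
    (by have : (0 : ℝ) ≤ p := Nat.cast_nonneg p; linarith)
  refine h.congr_fun (fun a _ => ?_) measurableSet_Ioi
  simp only [Real.rpow_natCast]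

theorem t_PHI : S_PHI := by
  intro δ p G x hδ hp hG hx
  have hΓ : 0 < Real.Gamma (p : ℝ) := Real.Gamma_pos_of_pos (by exact_mod_cast hp)
  have hwt : ∀ a : ℝ, 0 < a → 0 ≤ wt δ p a := fun a ha => by
    unfold wt
    positivity
  refine ⟨?_, ?_⟩
  · unfold phi
    refine setIntegral_nonneg measurableSet_Ioi fun a ha => ?_
    exact mul_nonneg (hwt a ha) (Real.exp_nonneg _)
  · have hx2 : 0 < x ^ 2 := by positivity
    have hax : 0 < |x| := abs_pos.2 hx
    have hcpos : 0 < G / (2 * x ^ 2) := by positivity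
    have h1 : phi δ p G x ≤
        ∫ a in Set.Ioi (0 : ℝ), (a ^ (p - 1) * Real.exp (-(G / (2 * x ^ 2)) * a ^ 2)) /
          Real.Gamma p := by
      unfold phi
      refine integral_mono_of_nonneg ?_ ((PHI_int (p - 1) _ hcpos).div_const _) ?_
      · refine (ae_restrict_iff' measurableSet_Ioi).2 (Filter.Eventually.of_forall fun a ha => ?_)
        exact mul_nonneg (hwt a ha) (Real.exp_nonneg _)
      · refine (ae_restrict_iff' measurableSet_Ioi).2 (Filter.Eventually.of_forall fun a ha => ?_)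
        have ha' : 0 < a := ha
        have e1 : Real.exp (-(δ * a)) ≤ 1 := Real.exp_le_one_iff.2 (by
          have := mul_pos hδ ha'
          linarith)
        have e2 : -(1 / 2) * (G * (a / x) ^ 2) = -(G / (2 * x ^ 2)) * a ^ 2 := by
          field_simp
        show wt δ p a * Real.exp (-(1 / 2) * (G * (a / x) ^ 2)) ≤ _
        rw [e2]
        unfold wt
        rw [div_mul_eq_mul_div]
        refine div_le_div_of_nonneg_right ?_ hΓ.le
        refine mul_le_mul_of_nonneg_right ?_ (Real.exp_nonneg _)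
        exact mul_le_of_le_one_right (by positivity) e1
    have h2 := integral_comp_mul_left_Ioi (fun b : ℝ => b ^ (p - 1) / Real.Gamma p *
      Real.exp (-(1 / 2) * (G * b ^ 2))) 0 (inv_pos.2 hax)
    rw [mul_zero, inv_inv, smul_eq_mul] at h2
    have h3 : ∀ a : ℝ, (a ^ (p - 1) * Real.exp (-(G / (2 * x ^ 2)) * a ^ 2)) / Real.Gamma p =
        |x| ^ (p - 1) * ((|x|⁻¹ * a) ^ (p - 1) / Real.Gamma p *
          Real.exp (-(1 / 2) * (G * (|x|⁻¹ * a) ^ 2))) := by
      intro a
      have e1 : -(1 / 2) * (G * (|x|⁻¹ * a) ^ 2) = -(G / (2 * x ^ 2)) * a ^ 2 := by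
        rw [mul_pow, inv_pow, sq_abs]
        field_simp
      rw [e1, mul_pow, inv_pow]
      field_simp
    refine h1.trans (le_of_eq ?_)
    rw [funext h3, integral_const_mul, h2, rho]
    obtain ⟨r, rfl⟩ : ∃ r, p = r + 1 := ⟨p - 1, by omega⟩
    rw [Nat.add_sub_cancel, pow_succ]
    ring

end H780GP
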