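import Pool.Agent.H780R2.GP.Defs

set_option autoImplicit false
open MeasureTheory ProbabilityTheory

namespace H780GP

namespace VN

theorem memLp_coord (n : ℕ) (j : Fin n) : MemLp (fun v : Fin n → ℝ => v j) 2 (gam n) := by
  have h := (memLp_id_gaussianReal (μ := 0) (v := 1) 2).comp_measurePreserving
    (measurePreserving_eval (fun _ : Fin n => gaussianReal 0 1) j)
  exact h

theorem memLp_lin (n : ℕ) (f : (Fin n → ℝ) →ₗ[ℝ] ℝ) : MemLp (fun v => f v) 2 (gam n) := by
  have h : (fun v => f v) = fun v : Fin n → ℝ =>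
      ∑ i, v i * f (fun j => if i = j then 1 else 0) := by
    funext v
    rw [LinearMap.pi_apply_eq_sum_univ f v]
    rfl
  rw [h]
  refine memLp_finset_sum _ fun i _ => ?_
  exact (memLp_coord n i).mul_const _

instance (n : ℕ) : IsProbabilityMeasure (gam n) := by
  unfold gam
  infer_instance

theorem memLp_Lf {n d : ℕ} (l : Fin d → ((Fin n → ℝ) →ₗ[ℝ] ℝ)) (ε : ℝ) (k : Fin d) :
    MemLp (fun w => Lf l ε k w) 2 (mu n d) := by
  have h1 : MemLp (fun w : V n d => l k w.1) 2 (mu n d) :=
    (memLp_lin n (l k)).comp_measurePreserving (measurePreserving_fst (μ := gam n) (ν := gam d))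
  have h2 : MemLp (fun w : V n d => w.2 k) 2 (mu n d) :=
    (memLp_coord d k).comp_measurePreserving (measurePreserving_snd (μ := gam n) (ν := gam d))
  exact h1.add (h2.const_mul ε)

theorem integrable_mul {n d : ℕ} (l : Fin d → ((Fin n → ℝ) →ₗ[ℝ] ℝ)) (ε : ℝ) (i j : Fin d) :
    Integrable (fun w => Lf l ε i w * Lf l ε j w) (mu n d) :=
  (memLp_Lf l ε i).integrable_mul (memLp_Lf l ε j)

theorem VV_eq {n d : ℕ} (l : Fin d → ((Fin n → ℝ) →ₗ[ℝ] ℝ)) (ε : ℝ) (c : Fin d → ℝ) :
    VV l ε c = ∫ w, (∑ k, c k * Lf l ε k w) ^ 2 ∂(mu n d) := by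
  have h : (fun w : V n d => (∑ k, c k * Lf l ε k w) ^ 2) =
      fun w => ∑ i, ∑ j, c i * c j * (Lf l ε i w * Lf l ε j w) := by
    funext w
    rw [sq, Finset.sum_mul_sum]
    refine Finset.sum_congr rfl fun i _ => Finset.sum_congr rfl fun j _ => ?_
    ring
  rw [h, integral_finset_sum]
  · unfold VV
    refine Finset.sum_congr rfl fun i _ => ?_
    rw [integral_finset_sum]
    · refine Finset.sum_congr rfl fun j _ => ?_
      rw [integral_const_mul]
      rfl
    · exact fun j _ => (integrable_mul l ε i j).const_mul _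
  · exact fun i _ => integrable_finset_sum _ fun j _ => (integrable_mul l ε i j).const_mul _

end VN

theorem t_VN : S_VN := by
  intro n d l ε c
  rw [VN.VV_eq]
  exact integral_nonneg fun w => sq_nonneg _

end H780GP
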