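import Pool.Agent.H780R2.GP.ROT
import Pool.Agent.H780R2.GP.MV
import Pool.Agent.H780R2.GP.NZ
import Pool.Agent.H780R2.GP.AB
import Pool.Agent.H780R2.GP.I0
import Pool.Agent.H780R2.GP.I2
import Pool.Agent.H780R2.GP.CHF
import Pool.Agent.H780R2.GP.VN
import Pool.Agent.H780R2.GP.FH
import Pool.Agent.H780R2.GP.KEY
import Pool.Agent.H780R2.GP.M1
import Pool.Agent.H780R2.GP.PHI
import Pool.Agent.H780R2.GP.PB
import Pool.Agent.H780R2.GP.GP
import Pool.Agent.H780R2.GP.MOM
import Pool.Agent.H780R2.GP.IP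
import Pool.Agent.H780R2.GP.F1
import Pool.Agent.H780R2.GP.LIM
import Pool.Agent.H780R2.GP.F2

set_option autoImplicit false
open MeasureTheory ProbabilityTheory

namespace H780GP

/-- The Gaussian product inequality for integer exponents. -/
theorem gpi : S_F2 := by
  have hMV : S_MV := t_MV t_ROT
  have hAB : S_AB := t_AB hMV t_NZ
  have hFH : S_FH := t_FH t_CHF t_VN
  have hKEY : S_KEY := t_KEY hFH t_VN
  have hM1 : S_M1 := t_M1 hKEY hAB t_I0 t_I2 t_NZ t_PB t_GP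
  have hF1 : S_F1 := t_F1 hM1 t_PHI (t_MOM t_GP) t_IP t_GP t_NZ t_PB
  exact t_F2 hF1 t_LIM

end H780GP
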