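import Pool.Agent.H780R2.GP.Defs

set_option autoImplicit false
open MeasureTheory ProbabilityTheory

namespace H780GP

namespace ROTaux

instance isProb_gam (n : ℕ) : IsProbabilityMeasure (gam n) := by
  unfold gam
  infer_instance

theorem isGaussian_gam (n : ℕ) : IsGaussian (gam n) := by
  have h1 : iIndepFun (fun (i : Fin n) (ω : Fin n → ℝ) => ω i) (gam n) := by
    unfold gam
    exact iIndepFun_pi (μ := fun _ : Fin n => gaussianReal 0 1)
      (X := fun (_ : Fin n) (x : ℝ) => x) (fun _ => aemeasurable_id)
  have h2 : ∀ i : Fin n, HasGaussianLaw (fun ω : Fin n → ℝ => ω i) (gam n) := by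
    intro i
    refine ⟨?_⟩
    have : (gam n).map (fun ω : Fin n → ℝ => ω i) = gaussianReal 0 1 :=
      (measurePreserving_eval (fun _ : Fin n => gaussianReal 0 1) i).map_eq
    rw [this]
    infer_instance
  have h3 := (iIndepFun.hasGaussianLaw h2 h1).isGaussian_map
  have h4 : (gam n).map (fun ω : Fin n → ℝ => (fun i => ω i)) = gam n := Measure.map_id
  rwa [h4] at h3

theorem integral_gam (n : ℕ) : ∫ x, x ∂(gam n) = 0 := by
  have := isGaussian_gam n
  have hint : Integrable (fun x : Fin n → ℝ => x) (gam n) := IsGaussian.integrable_id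
  ext i
  rw [eval_integral (fun i => hint.eval i)]
  unfold gam
  rw [integral_eval]
  simp

theorem isGaussian_mu (n d : ℕ) : IsGaussian (mu n d) := by
  have := isGaussian_gam n
  have := isGaussian_gam d
  unfold mu
  infer_instance

theorem integral_mu (n d : ℕ) : (mu n d)[id] = 0 := by
  have h1 := isGaussian_gam n
  have h2 := isGaussian_gam d
  have h3 := isGaussian_mu n d
  have hint : Integrable (fun x : V n d => x) (mu n d) := IsGaussian.integrable_id
  have e1 : ∫ w : V n d, w ∂(mu n d) = (∫ w, w.1 ∂(mu n d), ∫ w, w.2 ∂(mu n d)) :=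
    integral_pair hint.fst hint.snd
  have e2 : ∫ w : V n d, w.1 ∂(mu n d) = 0 := by
    unfold mu
    rw [integral_fun_fst (fun x : Fin n → ℝ => x), integral_gam, smul_zero]
  have e3 : ∫ w : V n d, w.2 ∂(mu n d) = 0 := by
    unfold mu
    rw [integral_fun_snd (fun x : Fin d → ℝ => x), integral_gam, smul_zero]
  simp only [id_eq]
  rw [e1, e2, e3]
  rfl

end ROTaux

theorem t_ROT : S_ROT := by
  intro n d t
  have h3 := ROTaux.isGaussian_mu n d
  have h4 := IsGaussian.map_rotation_eq_self (ROTaux.integral_mu n d) t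
  have h5 : (fun Z : V n d × V n d => ContinuousLinearMap.rotation t Z) = rot t := by
    funext Z
    rfl
  refine ⟨?_, ?_⟩
  · rw [← h5]
    exact (ContinuousLinearMap.rotation t).continuous.measurable
  · rw [← h5]
    exact h4

end H780GP
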